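import Pool.Agent.K6.H49.LTR.Rnd
import Pool.Agent.K6.H49.UGS.Alg

/-!
# The algorithm for graphs of low threshold rank
-/

set_option autoImplicit false

open Finset

namespace Pool.Agent.K6.H49.LTR

open Pool.Agent.K6.H49.UGX (Edge)
open Pool.Agent.K6.H49.UGQ
open Pool.Agent.K6.H49.UGS (amax amax_ok amax_lt)

/-- The signed combination of unit vectors. -/
def yS (N : ℕ) (ts : List (ℕ × ℕ × ℕ)) : List (ℕ × ℕ) :=
  (List.range N).map fun s =>
    (((ts.filter fun t => decide (t.1 = s)).map fun t => t.2.1).sum,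
      ((ts.filter fun t => decide (t.1 = s)).map fun t => t.2.2).sum)

/-- The scores of the labels of the right vertices. -/
def scL (n q : ℕ) (l : List Edge) (L : ℕ) (ts : List (ℕ × ℕ × ℕ)) : List (ℕ × ℕ) :=
  pass (n * q) (swp (UGQ.ext q l)) ((dbl (n * q) (UGQ.ext q l))^[L] (yS (n * q) ts))

/-- The comparison of two labels. -/
def cmpL (y : List (ℕ × ℕ)) (v q i j : ℕ) : Bool :=
  decide ((y.getD (v * q + i) (0, 0)).1 + (y.getD (v * q + j) (0, 0)).2 ≤
    (y.getD (v * q + j) (0, 0)).1 + (y.getD (v * q + i) (0, 0)).2)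

/-- The labels with the best scores. -/
def newL (n q : ℕ) (y : List (ℕ × ℕ)) : List ℕ := (List.range n).map fun v => amax q (cmpL y v q)

/-- The labeling of a combination. -/
def candL (n q : ℕ) (l : List Edge) (L : ℕ) (ts : List (ℕ × ℕ × ℕ)) : List ℕ × List ℕ :=
  (brL n q l (newL n q (scL n q l L ts)), newL n q (scL n q l L ts))

/-- All lists of `s` elements of `R`. -/
def tupA {β : Type} : ℕ → List β → List (List β)
  | 0, _ => [[]]
  | s + 1, R => R.flatMap fun r => (tupA s R).map fun t => r :: t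

theorem mem_tupA {β : Type} {R : List β} (t : List β) (h : ∀ r ∈ t, r ∈ R) :
    t ∈ tupA t.length R := by
  induction t with
  | nil => simp [tupA]
  | cons r t ih =>
    simp only [List.length_cons, tupA, List.mem_flatMap, List.mem_map]
    exact ⟨r, h r List.mem_cons_self, t, ih fun r' hr' => h r' (List.mem_cons_of_mem _ hr'), rfl⟩

/-- The triples of a node and two coefficients. -/
def trip (N B : ℕ) : List (ℕ × ℕ × ℕ) :=
  (List.range N).flatMap fun j => (List.range (B + 1)).flatMap fun a =>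
    (List.range (B + 1)).map fun b => (j, a, b)

/-- The labelings which are tried. -/
def listL (K T cB e n q : ℕ) (l : List Edge) : List (List ℕ × List ℕ) :=
  (List.range (l.length + T + 1)).flatMap fun L =>
    (tupA K (trip (n * q) (cB * l.length ^ e))).map fun ts => candL n q l L ts

/-- The algorithm. -/
def algL (K T cB e n q : ℕ) (l : List Edge) : List ℕ × List ℕ := best l (listL K T cB e n q l)

theorem S_range (K : ℕ) (F : ℕ → ℝ) : S F (List.range K) = ∑ i ∈ range K, F i := by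
  induction K with
  | zero => simp [S]
  | succ K ih => rw [List.range_succ, S_append, ih, sum_range_succ, S_cons, S_nil, add_zero]

theorem vl_yS (N K : ℕ) (j p m : ℕ → ℕ) {s : ℕ} (hs : s < N) :
    vl (yS N ((List.range K).map fun i => (j i, p i, m i))) s =
      ∑ i ∈ range K, ((p i : ℝ) - m i) * un (j i) s := by
  unfold vl yS
  rw [getD_range_map, if_pos hs]
  simp only
  rw [filter_sum _ (fun t : ℕ × ℕ × ℕ => t.1 = s), filter_sum _ (fun t : ℕ × ℕ × ℕ => t.1 = s),
    S_map, S_map, S_range, S_range, ← sum_sub_distrib]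
  refine sum_congr rfl fun i _ => ?_
  unfold un
  by_cases h : s = j i
  · rw [if_pos h.symm, if_pos h.symm, if_pos h, mul_one]
  · rw [if_neg (Ne.symm h), if_neg (Ne.symm h), if_neg h, mul_zero, sub_zero]

section

variable {n d q D k : ℕ} {σ : ℝ} {l : List Edge}

theorem cmpL_iff (y : List (ℕ × ℕ)) (v q i j : ℕ) :
    cmpL y v q i j = true ↔ vl y (v * q + i) ≤ vl y (v * q + j) := by
  unfold cmpL vl
  rw [decide_eq_true_eq]
  generalize (y.getD (v * q + i) (0, 0)) = w
  generalize (y.getD (v * q + j) (0, 0)) = w'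
  constructor
  · intro h
    have h' : ((w.1 + w'.2 : ℕ) : ℝ) ≤ ((w'.1 + w.2 : ℕ) : ℝ) := by exact_mod_cast h
    push_cast at h'
    linarith
  · intro h
    have h' : ((w.1 + w'.2 : ℕ) : ℝ) ≤ ((w'.1 + w.2 : ℕ) : ℝ) := by
      push_cast
      linarith
    exact_mod_cast h'

theorem toF_newL (y : List (ℕ × ℕ)) {v : ℕ} (hv : v < n) :
    toF (newL n q y) v = amax q (cmpL y v q) := by
  unfold toF newL
  rw [getD_range_map, if_pos hv]

theorem candL_lt (h : Xg n d q D l) (hq : 0 < q) (L : ℕ) (ts : List (ℕ × ℕ × ℕ)) :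
    (∀ u < n, toF (candL n q l L ts).1 u < q) ∧ ∀ u < n, toF (candL n q l L ts).2 u < q := by
  unfold candL
  refine ⟨fun u hu => (brLD h hq _ u hu).1, fun v hv => ?_⟩
  simp only
  rw [toF_newL _ hv]
  exact amax_lt hq _

theorem listL_lt (h : Xg n d q D l) (hq : 0 < q) {K T cB e : ℕ} {c : List ℕ × List ℕ}
    (hc : c ∈ listL K T cB e n q l) : (∀ u < n, toF c.1 u < q) ∧ ∀ u < n, toF c.2 u < q := by
  unfold listL at hc
  rw [List.mem_flatMap] at hc
  obtain ⟨L, _, hc⟩ := hc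
  rw [List.mem_map] at hc
  obtain ⟨ts, _, rfl⟩ := hc
  exact candL_lt h hq L ts

theorem At_div (E : List (ℕ × ℕ)) (x : ℕ → ℝ) (c : ℝ) (s : ℕ) :
    At E (fun r => x r / c) s = At E x s / c := by
  unfold At
  rw [div_eq_inv_mul, ← S_mul]
  refine S_congr fun e _ => ?_
  split_ifs
  · exact div_eq_inv_mul _ _
  · rw [mul_zero]

theorem len_eq (h : Xg n d q D l) : l.length = d * n := by
  have h1 : (l.length : ℝ) = ((d * n : ℕ) : ℝ) := by
    push_cast
    rw [← h.count]
    simp [S]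
  exact_mod_cast h1

/-- The sizes. -/
theorem sizes {len Qm Q D q K C T : ℕ} (hQ : Q ≤ Qm) (hQ0 : 0 < Q) (hD : 0 < D) (hlen : 1 ≤ len)
    (hT : 2 * K * C * q * Qm ≤ T) :
    2 * K * C * q * Q * len ^ 2 ≤ 4 ^ (Nat.size len + T) ∧
    C * q * (2 * (K + 1) * Q) * len ^ 2 * (Q * D) ^ (Nat.size len + T) + 1 ≤
      (C * q * (2 * (K + 1) * Qm) * 2 ^ (Qm * D) * (Qm * D) ^ T + 1) * len ^ (Qm * D + 2) := by
  have s1 : len ≤ 2 ^ Nat.size len := (Nat.lt_size_self len).le
  have s2 : 2 ^ Nat.size len ≤ 2 * len := by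
    have h1 : 0 < Nat.size len := Nat.size_pos.2 hlen
    have h2 : 2 ^ (Nat.size len - 1) ≤ len := Nat.lt_size.1 (by omega)
    have h3 : 2 ^ Nat.size len = 2 * 2 ^ (Nat.size len - 1) := by
      rw [← pow_succ']
      congr 1
      omega
    omega
  constructor
  · have h1 : 2 * K * C * q * Q ≤ 4 ^ T := by
      calc 2 * K * C * q * Q ≤ 2 * K * C * q * Qm := Nat.mul_le_mul_left _ hQ
        _ ≤ T := hT
        _ ≤ 4 ^ T := (Nat.lt_pow_self (by norm_num)).le
    have h2 : len ^ 2 ≤ 4 ^ Nat.size len := by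
      calc len ^ 2 ≤ (2 ^ Nat.size len) ^ 2 := Nat.pow_le_pow_left s1 2
        _ = 4 ^ Nat.size len := by
            rw [← pow_mul, mul_comm, pow_mul]
            norm_num
    rw [pow_add, mul_comm (4 ^ Nat.size len)]
    exact Nat.mul_le_mul h1 h2
  · have hQD : Q * D ≤ Qm * D := Nat.mul_le_mul_right _ hQ
    have h1 : (Q * D) ^ (Nat.size len + T) ≤ 2 ^ (Qm * D) * (Qm * D) ^ T * len ^ (Qm * D) := by
      calc (Q * D) ^ (Nat.size len + T) ≤ (Qm * D) ^ (Nat.size len + T) :=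
            Nat.pow_le_pow_left hQD _
        _ = (Qm * D) ^ Nat.size len * (Qm * D) ^ T := pow_add _ _ _
        _ ≤ (2 ^ (Qm * D)) ^ Nat.size len * (Qm * D) ^ T :=
            Nat.mul_le_mul_right _ (Nat.pow_le_pow_left Nat.lt_two_pow_self.le _)
        _ = (2 ^ Nat.size len) ^ (Qm * D) * (Qm * D) ^ T := by
            rw [← pow_mul, ← pow_mul, mul_comm (Qm * D)]
        _ ≤ (2 * len) ^ (Qm * D) * (Qm * D) ^ T :=
            Nat.mul_le_mul_right _ (Nat.pow_le_pow_left s2 _)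
        _ = _ := by
            rw [mul_pow]
            ring
    calc C * q * (2 * (K + 1) * Q) * len ^ 2 * (Q * D) ^ (Nat.size len + T) + 1 ≤
        C * q * (2 * (K + 1) * Qm) * len ^ 2 *
          (2 ^ (Qm * D) * (Qm * D) ^ T * len ^ (Qm * D)) + 1 * len ^ (Qm * D + 2) := by
          refine Nat.add_le_add (Nat.mul_le_mul ?_ h1) ?_
          · exact Nat.mul_le_mul_right _ (Nat.mul_le_mul_left _ (Nat.mul_le_mul_left _ hQ))
          · rw [one_mul]
            exact Nat.one_le_pow _ _ hlen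
      _ = _ := by
          rw [pow_add len]
          ring

/-- **A good labeling is tried.** -/
theorem exists_cand (h : Xg n d q D l) (hσ : 0 ≤ σ) (hk : Lr n d k σ l) (hD : 0 < D) (hq : 0 < q)
    {Qm Q K C T : ℕ} (hQm : Q ≤ Qm) (hQ : 0 < Q) (hQσ : 8 * D * σ * Q ≤ 1)
    (hK : 4 * D ^ 2 * (k * q) * Qm ^ 2 ≤ K)
    (hC : ∀ (N : ℕ) (β : ℕ → ℕ → ℝ), 0 < N →
      ∃ j : ℕ → ℕ, (∀ i < K, j i < N) ∧ ∃ c : ℕ → ℕ → ℝ, (∀ r < N, ∀ i < K, |c r i| ≤ C) ∧
      ∀ r < N, ∀ t < K, β r t = ∑ i ∈ range K, c r i * β (j i) t)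
    (hT : 2 * K * C * q * Qm ≤ T) {x : ℕ → ℕ} (hx : ∀ u < n, x u < q) :
    ∃ c ∈ listL K T (C * q * (2 * (K + 1) * Qm) * 2 ^ (Qm * D) * (Qm * D) ^ T + 1) (Qm * D + 2)
      n q l, BestL n q l (toF c.1) (toF c.2) ∧ (∀ v < n, toF c.2 v < q) ∧
      ∃ (ψ : Fin (n * q) → ℕ → ℝ) (μ : Fin (n * q) → ℝ) (p : ℕ → ℝ) (t : Fin (n * q) → ℝ),
        Bs (n * q) (UGQ.ext q l) ψ μ ∧ (∀ s < n * q, p s = ∑ k, t k * ψ k s) ∧
        (∀ v < n, ∀ i < q, At (UGQ.ext q l) p (v * q + i) ≤
          At (UGQ.ext q l) p (v * q + toF c.2 v)) ∧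
        ∑ k, (t k - if 4 * (d : ℝ) ^ 2 ≤ Q * μ k then ∑ u ∈ range n, ψ k (u * q + x u)
          else 0) ^ 2 ≤ 1 / (Q * d) := by
  have hn : (0 : ℝ) < n := by exact_mod_cast h.npos
  have hn1 : (1 : ℝ) ≤ n := by exact_mod_cast h.npos
  have hd : (0 : ℝ) < d := by exact_mod_cast h.dpos
  have hd1 : (1 : ℝ) ≤ d := by exact_mod_cast h.dpos
  have hQ' : (0 : ℝ) < Q := by exact_mod_cast hQ
  have hQ1 : (1 : ℝ) ≤ Q := by exact_mod_cast hQ
  have hD' : (0 : ℝ) < D := by exact_mod_cast hD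
  have hE := extD_lt h
  have hN : 0 < n * q := Nat.mul_pos h.npos hq
  obtain ⟨ψ, μ, o1, o2, o3⟩ := exists_basis hE
  have hb : Bs (n * q) (UGQ.ext q l) ψ μ := ⟨o1, o2, o3⟩
  have hcard : (univ.filter fun j => (d : ℝ) ^ 2 ≤ Q * μ j).card ≤ K := by
    refine (card_low h hσ hk hD hb hQ hQσ).trans (le_trans ?_ hK)
    exact Nat.mul_le_mul_left _ (Nat.pow_le_pow_left hQm 2)
  set a : Fin (n * q) → ℝ := fun k => ∑ u ∈ range n, ψ k (u * q + x u) with ha
  have hsum : ∑ k, a k ^ 2 ≤ (n : ℝ) ^ 2 := by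
    have : ∑ k, a k ^ 2 = n := by
      rw [← parseval hb a, ← chi_norm hx]
      exact sum_congr rfl fun s hs => by rw [chi_exp hb hx s (mem_range.1 hs)]
    rw [this]
    nlinarith
  have hlen := len_eq h
  have hlen1 : 1 ≤ l.length := by
    rw [hlen]
    exact Nat.mul_pos h.dpos h.npos
  obtain ⟨z1, z2⟩ := sizes (q := q) hQm hQ hD hlen1 hT
  set L := Nat.size l.length + T with hL
  set cB := C * q * (2 * (K + 1) * Qm) * 2 ^ (Qm * D) * (Qm * D) ^ T + 1 with hcB
  set R : ℝ := 2 * (K + 1) * Q * d with hR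
  have hR0 : 0 < R := by positivity
  have hlenR : (l.length : ℝ) = d * n := by
    rw [hlen]
    push_cast
    rfl
  have z1' : 2 * K * C * q * Q * ((d : ℝ) * n) ^ 2 ≤ 4 ^ L := by
    rw [← hlenR]
    exact_mod_cast z1
  have z2' : C * q * (2 * (K + 1) * Q) * ((d : ℝ) * n) ^ 2 * (Q * D) ^ L + 1 ≤
      ((cB * l.length ^ (Qm * D + 2) : ℕ) : ℝ) := by
    rw [← hlenR]
    exact_mod_cast z2
  obtain ⟨j, p, m, hj, herr⟩ := combZ hb hN hC (g := (d : ℝ) ^ 2) (by positivity) hQ' hD'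
    (muB_nonneg hE hb) (muD_le h hb) hcard L a hn.le hsum hR0
    (B := cB * l.length ^ (Qm * D + 2)) (by
      refine le_trans ?_ z2'
      have e1 : (Q * D / 4 : ℝ) ^ L ≤ (Q * D) ^ L :=
        pow_le_pow_left₀ (by positivity) (by
          have : (0 : ℝ) ≤ Q * D := by positivity
          linarith) L
      have e2 : (C : ℝ) * ((n * q : ℕ) : ℝ) * n * R ≤ C * q * (2 * (K + 1) * Q) * (d * n) ^ 2 := by
        rw [hR]
        push_cast
        have e3 : (C : ℝ) * q * (2 * (K + 1) * Q) * (n ^ 2 * d) ≤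
            C * q * (2 * (K + 1) * Q) * (n ^ 2 * d ^ 2) := by
          refine mul_le_mul_of_nonneg_left ?_ (by positivity)
          refine mul_le_mul_of_nonneg_left ?_ (by positivity)
          nlinarith
        calc (C : ℝ) * (n * q) * n * (2 * (K + 1) * Q * d) =
            C * q * (2 * (K + 1) * Q) * (n ^ 2 * d) := by ring
          _ ≤ _ := e3
          _ = _ := by ring
      have e4 := mul_le_mul e2 e1 (by positivity) (by positivity)
      linarith)
  set ts := (List.range K).map fun i => (j i, p i, m i) with hts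
  have hmem : candL n q l L ts ∈ listL K T cB (Qm * D + 2) n q l := by
    unfold listL
    rw [List.mem_flatMap]
    refine ⟨L, ?_, ?_⟩
    · rw [List.mem_range]
      have : (Nat.size l.length) ≤ l.length := Nat.size_le.2 Nat.lt_two_pow_self
      omega
    · rw [List.mem_map]
      refine ⟨ts, ?_, rfl⟩
      have hlen2 : ts.length = K := by simp [hts]
      rw [← hlen2]
      refine mem_tupA ts fun r hr => ?_
      rw [hlen2] at *
      simp only [hts, List.mem_map, List.mem_range] at hr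
      obtain ⟨i, hi, rfl⟩ := hr
      obtain ⟨h1, h2, h3⟩ := hj i hi
      unfold trip
      simp only [List.mem_flatMap, List.mem_map, List.mem_range]
      exact ⟨j i, h1, p i, by omega, m i, by omega, rfl⟩
  refine ⟨candL n q l L ts, hmem, ?_, (candL_lt h hq L ts).2, ψ, μ,
    fun s => vl ((dbl (n * q) (UGQ.ext q l))^[L] (yS (n * q) ts)) s /
      (R * (D * (d : ℝ) ^ 2) ^ L), fun k => μ k ^ L *
      (∑ i ∈ range K, ((p i : ℝ) - m i) * ψ k (j i)) / (R * (D * (d : ℝ) ^ 2) ^ L),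
    hb, ?_, ?_, ?_⟩
  · unfold candL
    exact brLD h hq _
  · intro s hs
    have h1 : ∀ s < n * q, vl (yS (n * q) ts) s =
        ∑ k, (∑ i ∈ range K, ((p i : ℝ) - m i) * ψ k (j i)) * ψ k s := by
      intro s hs
      rw [hts, vl_yS _ _ _ _ _ hs]
      have h2 : ∀ i ∈ range K, ((p i : ℝ) - m i) * un (j i) s =
          ∑ k, ((p i : ℝ) - m i) * (ψ k (j i) * ψ k s) := by
        intro i hi
        rw [un_exp hb (hj i (mem_range.1 hi)).1 s hs, mul_sum]
      rw [sum_congr rfl h2, sum_comm]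
      refine sum_congr rfl fun k _ => ?_
      rw [sum_mul]
      exact sum_congr rfl fun i _ => by ring
    have h3 := vl_dbl_iter hE (yS (n * q) ts) L s hs
    have h4 := Mo_iter hE hb h1 L s hs
    beta_reduce
    rw [h3, h4, sum_div]
    exact sum_congr rfl fun k _ => by ring
  · intro v hv i hi
    rw [At_div, At_div]
    refine div_le_div_of_nonneg_right ?_ (by positivity)
    have h1 : ∀ s < n * q, vl (scL n q l L ts) s =
        At (UGQ.ext q l) (vl ((dbl (n * q) (UGQ.ext q l))^[L] (yS (n * q) ts))) s := by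
      intro s hs
      unfold scL
      rw [vl_pass _ _ _ hs, Av_swp]
    have h2 : toF (candL n q l L ts).2 v = amax q (cmpL (scL n q l L ts) v q) := toF_newL _ hv
    obtain ⟨h3, h4⟩ := amax_ok hq (cmpL (scL n q l L ts) v q)
      (fun i => vl (scL n q l L ts) (v * q + i)) fun i _ j _ => cmpL_iff _ _ _ _ _
    rw [h2, ← h1 _ (node_lt hv hi), ← h1 _ (node_lt hv h3)]
    exact h4 i hi
  · refine herr.trans ?_
    have e1 : (K : ℝ) / R ≤ 1 / (2 * Q * d) := by
      rw [hR, div_le_div_iff₀ (by positivity) (by positivity)]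
      have : (0 : ℝ) ≤ Q * d := by positivity
      nlinarith
    have e2 : (K : ℝ) * (C * ((n * q : ℕ) : ℝ)) * (n / 4 ^ L) ≤ 1 / (2 * Q * d) := by
      rw [← mul_div_assoc, div_le_div_iff₀ (by positivity) (by positivity), one_mul]
      refine le_trans ?_ z1'
      push_cast
      have e3 : 2 * (K : ℝ) * C * q * Q * (n ^ 2 * d) ≤ 2 * K * C * q * Q * (n ^ 2 * d ^ 2) := by
        refine mul_le_mul_of_nonneg_left ?_ (by positivity)
        refine mul_le_mul_of_nonneg_left ?_ (by positivity)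
        nlinarith
      calc (K : ℝ) * (C * (n * q)) * n * (2 * Q * d) = 2 * K * C * q * Q * (n ^ 2 * d) := by ring
        _ ≤ _ := e3
        _ = _ := by ring
    have p1 : 0 ≤ (K : ℝ) / R := by positivity
    have p2 : 0 ≤ (K : ℝ) * (C * ((n * q : ℕ) : ℝ)) * (n / 4 ^ L) := by positivity
    have e4 := pow_le_pow_left₀ p1 e1 2
    have e5 := pow_le_pow_left₀ p2 e2 2
    have e6 : (1 / (2 * (Q : ℝ) * d)) ^ 2 ≤ 1 / (Q * d) * (1 / 4) := by
      have e7 : (1 / (2 * (Q : ℝ) * d)) ^ 2 = 1 / (Q * d) * (1 / 4) * (1 / (Q * d)) := by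
        field_simp
        ring
      rw [e7]
      refine mul_le_of_le_one_right (by positivity) ?_
      rw [div_le_one (by positivity)]
      nlinarith
    linarith

end

end Pool.Agent.K6.H49.LTR
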