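import Pool.Agent.K6.H49.LTR.Alg
import Pool.Agent.K6.H49.UGS.AlgP

/-!
# The algorithm runs in polynomial time
-/

set_option autoImplicit false

namespace Pool.Agent.K6.H49.LTR

open Pool.Agent.NPC
open Pool.Agent.K6.H49.UGX (Edge iterU)
open Pool.Agent.K6.H49.UGQ
open Pool.Agent.K6.H49.UGS (amax uPoly_pow uPoly_min)

section Pol

variable {α : Type} [TEnc α]

theorem poly_it {N m : α → ℕ} {E y : α → List (ℕ × ℕ)} (hN : UPoly N) (hE : Poly E)
    (hm : UPoly m) (hy : Poly y) : Poly (fun a => (dbl (N a) (E a))^[m a] (y a)) := by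
  have hL : UPoly (fun a => (E a).length) := UPoly.length hE
  obtain ⟨p1, hp1⟩ := uPoly_le hN
  obtain ⟨p2, hp2⟩ := uPoly_le hL
  obtain ⟨p3, hp3⟩ := uPoly_le hm
  obtain ⟨p4, hp4⟩ := NPC.Poly.sz_le hy
  refine iterU hm hy (F := fun a w => dbl (N a) (E a) w)
    (poly_dbl (hN.comp (Poly.fst Poly.id)) (by fun_prop) (Poly.snd Poly.id))
    ((p1 + p4) * (Polynomial.C 8 * (p2 * (Polynomial.C 2 * p3) + Polynomial.C 1 + p4) +
      Polynomial.C 4) + Polynomial.C 1) fun a k hk => ?_
  refine (iter_sz (N a) (E a) (y a) k).trans ?_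
  simp only [Polynomial.eval_mul, Polynomial.eval_add, Polynomial.eval_C]
  have h1 := hp1 a
  have h2 := hp2 a
  have h3 := hk.trans (hp3 a)
  have h4 := hp4 a
  gcongr

theorem poly_yS {N : α → ℕ} {ts : α → List (ℕ × ℕ × ℕ)} (hN : UPoly N) (hts : Poly ts) :
    Poly (fun a => yS (N a) (ts a)) := by
  unfold yS
  refine NPC.Poly.map (F := fun a s =>
    ((((ts a).filter fun t => decide (t.1 = s)).map fun t => t.2.1).sum,
      (((ts a).filter fun t => decide (t.1 = s)).map fun t => t.2.2).sum)) hN.range ?_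
  have hf : Poly (fun p : α × ℕ => (ts p.1).filter fun t => decide (t.1 = p.2)) := by fun_prop
  refine Poly.pair (Poly.sum ?_) (Poly.sum ?_)
  · refine NPC.Poly.map (F := fun (_ : α × ℕ) (t : ℕ × ℕ × ℕ) => t.2.1) hf ?_
    fun_prop
  · refine NPC.Poly.map (F := fun (_ : α × ℕ) (t : ℕ × ℕ × ℕ) => t.2.2) hf ?_
    fun_prop

theorem poly_scL (q : ℕ) {n L : α → ℕ} {l : α → List Edge} {ts : α → List (ℕ × ℕ × ℕ)}
    (hn : UPoly n) (hl : Poly l) (hL : UPoly L) (hts : Poly ts) :
    Poly (fun a => scL (n a) q (l a) (L a) (ts a)) := by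
  unfold scL
  have hN : UPoly (fun a => n a * q) := UPoly.mul hn (UPoly.const q)
  exact poly_pass hN (poly_swp (poly_ext q hl)) (poly_it hN (poly_ext q hl) hL (poly_yS hN hts))

theorem poly_newL (q : ℕ) {n : α → ℕ} {y : α → List (ℕ × ℕ)} (hn : UPoly n) (hy : Poly y) :
    Poly (fun a => newL (n a) q (y a)) := by
  unfold newL
  refine NPC.Poly.map (F := fun a v => amax q (cmpL (y a) v q)) hn.range ?_
  unfold amax cmpL
  refine Poly.optGetD (Poly.head? (Poly.filter (p := fun (p : α × ℕ) i =>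
    (List.range q).all fun j => decide (((y p.1).getD (p.2 * q + j) (0, 0)).1 +
        ((y p.1).getD (p.2 * q + i) (0, 0)).2 ≤
      ((y p.1).getD (p.2 * q + i) (0, 0)).1 +
        ((y p.1).getD (p.2 * q + j) (0, 0)).2)) (NPC.Poly.const _) ?_))
    (NPC.Poly.const _)
  refine Poly.all (p := fun (z : (α × ℕ) × ℕ) j =>
    decide (((y z.1.1).getD (z.1.2 * q + j) (0, 0)).1 +
        ((y z.1.1).getD (z.1.2 * q + z.2) (0, 0)).2 ≤
      ((y z.1.1).getD (z.1.2 * q + z.2) (0, 0)).1 +
        ((y z.1.1).getD (z.1.2 * q + j) (0, 0)).2)) (NPC.Poly.const _) ?_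
  exact Poly.decide_le (by fun_prop) (by fun_prop)

theorem poly_candL (q : ℕ) {n L : α → ℕ} {l : α → List Edge} {ts : α → List (ℕ × ℕ × ℕ)}
    (hn : UPoly n) (hl : Poly l) (hL : UPoly L) (hts : Poly ts) :
    Poly (fun a => candL (n a) q (l a) (L a) (ts a)) := by
  unfold candL
  have h1 := poly_newL q hn (poly_scL q hn hl hL hts)
  exact Poly.pair (poly_brL q hn hl h1) h1

theorem poly_tupA {β : Type} [TEnc β] (s : ℕ) {R : α → List β} (hR : Poly R) :
    Poly (fun a => tupA s (R a)) := by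
  induction s with
  | zero =>
    have : (fun a => tupA 0 (R a)) = fun _ => ([[]] : List (List β)) := rfl
    rw [this]
    exact NPC.Poly.const _
  | succ s ih =>
    refine NPC.Poly.flatMap (F := fun a r => (tupA s (R a)).map fun t => r :: t) hR ?_
    refine NPC.Poly.map (F := fun (p : α × β) t => p.2 :: t) (ih.comp (Poly.fst Poly.id)) ?_
    fun_prop

theorem poly_trip {N B : α → ℕ} (hN : UPoly N) (hB : UPoly B) :
    Poly (fun a => trip (N a) (B a)) := by
  unfold trip
  have hB1 : UPoly (fun a => B a + 1) := UPoly.add hB (UPoly.const 1)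
  refine NPC.Poly.flatMap (F := fun a (j : ℕ) => (List.range (B a + 1)).flatMap fun b =>
    (List.range (B a + 1)).map fun c => (j, b, c)) hN.range ?_
  refine NPC.Poly.flatMap (F := fun (p : α × ℕ) (b : ℕ) =>
    (List.range (B p.1 + 1)).map fun c => (p.2, b, c))
    (hB1.comp (Poly.fst Poly.id)).range ?_
  refine NPC.Poly.map (F := fun (p : (α × ℕ) × ℕ) (c : ℕ) => (p.1.2, p.2, c))
    (hB1.comp (Poly.fst (Poly.fst Poly.id))).range ?_
  fun_prop

end Pol

/-- The algorithm. -/
def algoL (K T cB e q : ℕ) (G : UGX.Game) : List ℕ × List ℕ := algL K T cB e (nn G) q G.2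

theorem poly_algoL (K T cB e q : ℕ) : Poly (algoL K T cB e q) := by
  have hlen : UPoly (fun a : Dt => a.2.length) := UPoly.length (Poly.snd Poly.id)
  have hT : UPoly (fun a : Dt => a.2.length + T) := UPoly.add hlen (UPoly.const T)
  have h : Poly (fun a : Dt => best a.2 ((List.range (a.2.length + T + 1)).flatMap fun L =>
      (tupA K (trip (nn a * q) (cB * a.2.length ^ e))).map fun ts =>
        candL (nn a) q a.2 (min L (a.2.length + T)) ts)) := by
    refine poly_best (Poly.snd Poly.id) ?_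
    refine NPC.Poly.flatMap (F := fun (a : Dt) (L : ℕ) =>
      (tupA K (trip (nn a * q) (cB * a.2.length ^ e))).map fun ts =>
        candL (nn a) q a.2 (min L (a.2.length + T)) ts)
      (UPoly.add hT (UPoly.const 1)).range ?_
    refine NPC.Poly.map (F := fun (p : Dt × ℕ) (ts : List (ℕ × ℕ × ℕ)) =>
      candL (nn p.1) q p.1.2 (min p.2 (p.1.2.length + T)) ts) ?_ ?_
    · refine (poly_tupA K (poly_trip (UPoly.mul uPoly_nn (UPoly.const q))
        (UPoly.mul (UPoly.const cB) (uPoly_pow hlen e)))).comp (Poly.fst Poly.id)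
    · exact poly_candL q (uPoly_nn.comp (Poly.fst (Poly.fst Poly.id))) (by fun_prop)
        (uPoly_min (by fun_prop) (hT.comp (Poly.fst (Poly.fst Poly.id)))) (Poly.snd Poly.id)
  refine h.congr fun a => ?_
  unfold algoL algL listL
  congr 1
  refine List.flatMap_congr fun L hL => ?_
  rw [List.mem_range] at hL
  rw [Nat.min_eq_left (by omega)]

end Pool.Agent.K6.H49.LTR
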