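import Mathlib

/-!
# Few vectors which represent all with bounded coefficients
-/

set_option autoImplicit false

open Finset

namespace Pool.Agent.K6.H49.LTR

/-- **Gaussian elimination with pivots**: finitely many vectors with `m` coordinates are
combinations of `m` of them, with bounded coefficients. -/
theorem pivot (m : ℕ) : ∃ C : ℕ, ∀ (N : ℕ) (β : ℕ → ℕ → ℝ), 0 < N →
    ∃ j : ℕ → ℕ, (∀ i < m, j i < N) ∧ ∃ c : ℕ → ℕ → ℝ, (∀ r < N, ∀ i < m, |c r i| ≤ C) ∧
      ∀ r < N, ∀ t < m, β r t = ∑ i ∈ range m, c r i * β (j i) t := by
  induction m with
  | zero => exact ⟨0, fun N β hN => ⟨fun _ => 0, fun i hi => absurd hi (by omega), fun _ _ => 0,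
      fun r _ i hi => absurd hi (by omega), fun r _ t ht => absurd ht (by omega)⟩⟩
  | succ m ih =>
    obtain ⟨C, hC⟩ := ih
    refine ⟨1 + m * C + C, fun N β hN => ?_⟩
    obtain ⟨r0, hr0, hmax⟩ := exists_max_image (range N) (fun r => |β r m|)
      ⟨0, mem_range.2 hN⟩
    rw [mem_range] at hr0
    by_cases h0 : β r0 m = 0
    · obtain ⟨j, hj, c, hc, he⟩ := hC N β hN
      have hz : ∀ r < N, β r m = 0 := by
        intro r hr
        have := hmax r (mem_range.2 hr)
        rw [h0, abs_zero] at this
        exact abs_nonpos_iff.1 this
      refine ⟨fun i => if i = m then 0 else j i, fun i hi => ?_,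
        fun r i => if i = m then 0 else c r i, fun r hr i hi => ?_, fun r hr t ht => ?_⟩
      · beta_reduce
        split_ifs
        · exact hN
        · exact hj i (by omega)
      · beta_reduce
        split_ifs
        · rw [abs_zero]
          positivity
        · have := hc r hr i (by omega)
          refine this.trans ?_
          push_cast
          have : (0 : ℝ) ≤ m * C := by positivity
          linarith
      · beta_reduce
        rw [sum_range_succ, if_pos rfl, zero_mul, add_zero]
        have h1 : ∑ i ∈ range m, (if i = m then 0 else c r i) *
            β (if i = m then 0 else j i) t = ∑ i ∈ range m, c r i * β (j i) t := by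
          refine sum_congr rfl fun i hi => ?_
          rw [mem_range] at hi
          rw [if_neg (by omega), if_neg (by omega)]
        rw [h1]
        rcases Nat.lt_succ_iff_lt_or_eq.1 ht with ht | rfl
        · exact he r hr t ht
        · rw [hz r hr]
          symm
          refine sum_eq_zero fun i hi => ?_
          rw [hz _ (hj i (mem_range.1 hi)), mul_zero]
    · set ρ : ℕ → ℝ := fun r => β r m / β r0 m with hρ
      have hρ1 : ∀ r < N, |ρ r| ≤ 1 := by
        intro r hr
        simp only [hρ]
        rw [abs_div, div_le_one (abs_pos.2 h0)]
        exact hmax r (mem_range.2 hr)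
      obtain ⟨j, hj, c, hc, he⟩ := hC N (fun r t => β r t - ρ r * β r0 t) hN
      have hC0 : (0 : ℝ) ≤ C := by positivity
      refine ⟨fun i => if i = m then r0 else j i, fun i hi => ?_,
        fun r i => if i = m then ρ r - ∑ i ∈ range m, c r i * ρ (j i) else c r i,
        fun r hr i hi => ?_, fun r hr t ht => ?_⟩
      · beta_reduce
        split_ifs
        · exact hr0
        · exact hj i (by omega)
      · beta_reduce
        split_ifs
        · have h1 : |∑ i ∈ range m, c r i * ρ (j i)| ≤ m * C := by
            refine (abs_sum_le_sum_abs _ _).trans ?_
            refine (sum_le_sum (g := fun _ => (C : ℝ)) fun i hi => ?_).trans ?_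
            · rw [mem_range] at hi
              rw [abs_mul]
              have h2 := hc r hr i hi
              have h3 := hρ1 _ (hj i hi)
              calc |c r i| * |ρ (j i)| ≤ C * 1 := mul_le_mul h2 h3 (abs_nonneg _) hC0
                _ = C := mul_one _
            · rw [sum_const, card_range, nsmul_eq_mul]
          have h2 := hρ1 r hr
          have h3 := abs_sub (ρ r) (∑ i ∈ range m, c r i * ρ (j i))
          push_cast
          linarith
        · have := hc r hr i (by omega)
          refine this.trans ?_
          push_cast
          have : (0 : ℝ) ≤ m * C := by positivity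
          linarith
      · beta_reduce
        rw [sum_range_succ, if_pos rfl, if_pos rfl]
        have h1 : ∑ i ∈ range m, (if i = m then ρ r - ∑ i ∈ range m, c r i * ρ (j i) else c r i) *
            β (if i = m then r0 else j i) t = ∑ i ∈ range m, c r i * β (j i) t := by
          refine sum_congr rfl fun i hi => ?_
          rw [mem_range] at hi
          rw [if_neg (by omega), if_neg (by omega)]
        rw [h1]
        have h2 : ∑ i ∈ range m, c r i * (β (j i) t - ρ (j i) * β r0 t) =
            (∑ i ∈ range m, c r i * β (j i) t) - (∑ i ∈ range m, c r i * ρ (j i)) * β r0 t := by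
          rw [sum_mul, ← sum_sub_distrib]
          exact sum_congr rfl fun i _ => by ring
        rcases Nat.lt_succ_iff_lt_or_eq.1 ht with ht | rfl
        · have h3 := he r hr t ht
          beta_reduce at h3
          rw [h2] at h3
          linarith
        · have h3 : ∑ i ∈ range t, c r i * (β (j i) t - ρ (j i) * β r0 t) = 0 := by
            refine sum_eq_zero fun i _ => ?_
            have : β (j i) t - ρ (j i) * β r0 t = 0 := by
              simp only [hρ]
              rw [div_mul_cancel₀ _ h0, sub_self]
            rw [this, mul_zero]
          rw [h2] at h3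
          have h4 : ρ r * β r0 t = β r t := by
            simp only [hρ]
            rw [div_mul_cancel₀ _ h0]
          linarith

end Pool.Agent.K6.H49.LTR
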