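import Pool.Agent.K6.H49.LTR.Reg
import Pool.Agent.K6.H49.LTR.Piv
import Pool.Agent.K6.H49.UGS.Add

/-!
# The top part of a vector is a short combination of columns of a power of the matrix
-/

set_option autoImplicit false

open Finset

namespace Pool.Agent.K6.H49.LTR

open Pool.Agent.K6.H49.UGX (Edge)
open Pool.Agent.K6.H49.UGQ

section

variable {N : ℕ} {E : List (ℕ × ℕ)} {ψ : Fin N → ℕ → ℝ} {μ : Fin N → ℝ}

theorem col_sq (hb : Bs N E ψ μ) {K : ℕ} {j : ℕ → ℕ} (hj : ∀ i < K, j i < N) (c : ℕ → ℝ) {M : ℝ}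
    (hc : ∀ i < K, |c i| ≤ M) :
    ∑ k, (∑ i ∈ range K, c i * ψ k (j i)) ^ 2 ≤ (K * M) ^ 2 := by
  have h1 : ∀ k, (∑ i ∈ range K, c i * ψ k (j i)) ^ 2 ≤
      K * ∑ i ∈ range K, M ^ 2 * (ψ k (j i) * ψ k (j i)) := by
    intro k
    have h2 := sq_sum_le_card_mul_sum_sq (s := range K) (f := fun i => c i * ψ k (j i))
    rw [card_range] at h2
    refine h2.trans (mul_le_mul_of_nonneg_left ?_ (by positivity))
    refine sum_le_sum fun i hi => ?_
    rw [mul_pow]
    have h3 : c i ^ 2 ≤ M ^ 2 := by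
      rw [← sq_abs (c i)]
      exact pow_le_pow_left₀ (abs_nonneg _) (hc i (mem_range.1 hi)) 2
    calc c i ^ 2 * ψ k (j i) ^ 2 ≤ M ^ 2 * ψ k (j i) ^ 2 :=
          mul_le_mul_of_nonneg_right h3 (sq_nonneg _)
      _ = _ := by rw [sq (ψ k (j i))]
  refine (sum_le_sum fun k _ => h1 k).trans ?_
  rw [← mul_sum, sum_comm]
  have h4 : ∀ i ∈ range K, ∑ k, M ^ 2 * (ψ k (j i) * ψ k (j i)) = M ^ 2 := by
    intro i hi
    have h5 := hj i (mem_range.1 hi)
    rw [← mul_sum, hb.comp _ h5 _ h5, if_pos rfl, mul_one]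
  rw [sum_congr rfl h4, sum_const, card_range, nsmul_eq_mul]
  exact le_of_eq (by ring)

/-- The exact coefficients. -/
theorem comb (hb : Bs N E ψ μ) (hN : 0 < N) {K C : ℕ}
    (hC : ∀ (N : ℕ) (β : ℕ → ℕ → ℝ), 0 < N →
      ∃ j : ℕ → ℕ, (∀ i < K, j i < N) ∧ ∃ c : ℕ → ℕ → ℝ, (∀ r < N, ∀ i < K, |c r i| ≤ C) ∧
      ∀ r < N, ∀ t < K, β r t = ∑ i ∈ range K, c r i * β (j i) t)
    {g : ℝ} (hg : 0 < g) {Q : ℝ} (hQ : 0 < Q) (hμ : ∀ k, 0 ≤ μ k)
    (hK : (univ.filter fun k => g ≤ Q * μ k).card ≤ K) (L : ℕ) (a : Fin N → ℝ) {X : ℝ}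
    (hX : 0 ≤ X) (ha : ∑ k, a k ^ 2 ≤ X ^ 2) :
    ∃ (j : ℕ → ℕ) (c : ℕ → ℝ), (∀ i < K, j i < N) ∧
      (∀ i < K, |c i| ≤ C * N * ((Q / (4 * g)) ^ L * X)) ∧
      ∑ k, (μ k ^ L * (∑ i ∈ range K, c i * ψ k (j i)) - if 4 * g ≤ Q * μ k then a k else 0) ^ 2 ≤
        (K * (C * N) * (X / 4 ^ L)) ^ 2 := by
  classical
  set S1 := univ.filter fun k => g ≤ Q * μ k with hS1
  set φ : ℕ → Fin N := fun t => S1.toList.getD t ⟨0, hN⟩ with hφ
  have hsurj : ∀ k ∈ S1, ∃ t < K, φ t = k := by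
    intro k hk
    obtain ⟨t, ht, he⟩ := List.mem_iff_getElem.1 (Finset.mem_toList.2 hk)
    refine ⟨t, ?_, ?_⟩
    · rw [Finset.length_toList] at ht
      omega
    · simp only [hφ]
      rw [List.getD_eq_getElem _ _ ht]
      exact he
  obtain ⟨j, hj, c, hc, he⟩ := hC N (fun r t => μ (φ t) ^ L * ψ (φ t) r) hN
  have he' : ∀ r < N, ∀ k ∈ S1, μ k ^ L * ψ k r =
      ∑ i ∈ range K, c r i * (μ k ^ L * ψ k (j i)) := by
    intro r hr k hk
    obtain ⟨t, ht, rfl⟩ := hsurj k hk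
    exact he r hr t ht
  set b : Fin N → ℝ := fun k => if 4 * g ≤ Q * μ k then a k / μ k ^ L else 0 with hbdef
  set w : ℕ → ℝ := fun r => ∑ k, b k * ψ k r with hw
  set B : ℝ := (Q / (4 * g)) ^ L * X with hB
  have hB0 : 0 ≤ B := by positivity
  -- the norm of w
  have hbk : ∀ k, b k ^ 2 ≤ ((Q / (4 * g)) ^ L) ^ 2 * a k ^ 2 := by
    intro k
    simp only [hbdef]
    split_ifs with h1
    · have hpos : 0 < μ k := by
        by_contra hcon
        push Not at hcon
        have : μ k = 0 := le_antisymm hcon (hμ k)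
        rw [this, mul_zero] at h1
        linarith
      rw [div_pow, div_eq_mul_inv, mul_comm]
      refine mul_le_mul_of_nonneg_right ?_ (sq_nonneg _)
      rw [← inv_pow]
      refine pow_le_pow_left₀ (by positivity) ?_ 2
      rw [← inv_pow]
      refine pow_le_pow_left₀ (by positivity) ?_ L
      rw [inv_le_comm₀ hpos (by positivity), inv_div, div_le_iff₀ hQ]
      linarith
    · rw [zero_pow (by norm_num)]
      positivity
  have hwn : ∑ r ∈ range N, w r ^ 2 ≤ B ^ 2 := by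
    have h1 := parseval hb b
    simp only [hw]
    rw [h1]
    refine (sum_le_sum fun k _ => hbk k).trans ?_
    rw [← mul_sum, hB, mul_pow]
    exact mul_le_mul_of_nonneg_left ha (sq_nonneg _)
  have hw1 : ∀ r < N, |w r| ≤ B := by
    intro r hr
    rw [← Real.sqrt_sq_eq_abs, Real.sqrt_le_left hB0]
    refine le_trans ?_ hwn
    exact single_le_sum (f := fun r => w r ^ 2) (fun r _ => sq_nonneg _) (mem_range.2 hr)
  have hwψ : ∀ k, ∑ r ∈ range N, w r * ψ k r = b k := by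
    intro k
    have h1 : ∀ r, w r * ψ k r = ∑ m, b m * (ψ m r * ψ k r) := by
      intro r
      simp only [hw]
      rw [sum_mul]
      exact sum_congr rfl fun m _ => by ring
    simp only [h1]
    rw [sum_comm]
    simp only [← mul_sum, hb.orth]
    rw [sum_eq_single k]
    · rw [if_pos rfl, mul_one]
    · intro m _ hm
      rw [if_neg hm, mul_zero]
    · intro hh
      exact absurd (mem_univ k) hh
  set c' : ℕ → ℝ := fun i => ∑ r ∈ range N, w r * c r i with hc'
  have hc'1 : ∀ i < K, |c' i| ≤ C * N * B := by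
    intro i hi
    simp only [hc']
    refine (abs_sum_le_sum_abs _ _).trans ?_
    refine (sum_le_sum (g := fun _ => B * C) fun r hr => ?_).trans (le_of_eq ?_)
    · rw [mem_range] at hr
      rw [abs_mul]
      exact mul_le_mul (hw1 r hr) (hc r hr i hi) (abs_nonneg _) hB0
    · rw [sum_const, card_range, nsmul_eq_mul]
      ring
  refine ⟨j, c', hj, hc'1, ?_⟩
  have hterm : ∀ k, (μ k ^ L * (∑ i ∈ range K, c' i * ψ k (j i)) -
      if 4 * g ≤ Q * μ k then a k else 0) ^ 2 ≤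
      ((g / Q) ^ L) ^ 2 * (∑ i ∈ range K, c' i * ψ k (j i)) ^ 2 := by
    intro k
    by_cases hk : g ≤ Q * μ k
    · -- the error vanishes
      have h1 : μ k ^ L * (∑ i ∈ range K, c' i * ψ k (j i)) = μ k ^ L * b k := by
        rw [← hwψ k, mul_sum, mul_sum]
        have h2 : ∀ r ∈ range N, μ k ^ L * (w r * ψ k r) =
            ∑ i ∈ range K, w r * (c r i * (μ k ^ L * ψ k (j i))) := by
          intro r hr
          have := he' r (mem_range.1 hr) k (mem_filter.2 ⟨mem_univ _, hk⟩)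
          rw [← mul_sum, ← this]
          ring
        rw [sum_congr rfl h2, sum_comm]
        refine sum_congr rfl fun i _ => ?_
        simp only [hc']
        rw [sum_mul, mul_sum]
        exact sum_congr rfl fun r _ => by ring
      have h3 : μ k ^ L * b k = if 4 * g ≤ Q * μ k then a k else 0 := by
        simp only [hbdef]
        split_ifs with h4
        · have hpos : 0 < μ k := by
            by_contra hcon
            push Not at hcon
            have : μ k = 0 := le_antisymm hcon (hμ k)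
            rw [this, mul_zero] at h4
            linarith
          field_simp
        · rw [mul_zero]
      rw [h1, h3, sub_self, zero_pow (by norm_num)]
      positivity
    · have h1 : ¬ 4 * g ≤ Q * μ k := by
        intro h2
        push Not at hk
        linarith
      rw [if_neg h1, sub_zero, mul_pow]
      refine mul_le_mul_of_nonneg_right ?_ (sq_nonneg _)
      refine pow_le_pow_left₀ (pow_nonneg (hμ k) L) ?_ 2
      refine pow_le_pow_left₀ (hμ k) ?_ L
      push Not at hk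
      rw [le_div_iff₀ hQ]
      linarith
  refine (sum_le_sum fun k _ => hterm k).trans ?_
  rw [← mul_sum]
  have h1 := mul_le_mul_of_nonneg_left (col_sq hb hj c' hc'1)
    (sq_nonneg ((g / Q) ^ L))
  refine h1.trans (le_of_eq ?_)
  rw [← mul_pow, hB]
  congr 1
  have h2 : (g / Q) ^ L * (Q / (4 * g)) ^ L = 1 / 4 ^ L := by
    rw [← mul_pow]
    have : g / Q * (Q / (4 * g)) = 1 / 4 := by field_simp
    rw [this, div_pow, one_pow]
  calc (g / Q) ^ L * (K * (C * N * ((Q / (4 * g)) ^ L * X))) =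
      ((g / Q) ^ L * (Q / (4 * g)) ^ L) * (K * (C * N) * X) := by ring
    _ = _ := by rw [h2]; ring

/-- The integral coefficients. -/
theorem combZ (hb : Bs N E ψ μ) (hN : 0 < N) {K C : ℕ}
    (hC : ∀ (N : ℕ) (β : ℕ → ℕ → ℝ), 0 < N →
      ∃ j : ℕ → ℕ, (∀ i < K, j i < N) ∧ ∃ c : ℕ → ℕ → ℝ, (∀ r < N, ∀ i < K, |c r i| ≤ C) ∧
      ∀ r < N, ∀ t < K, β r t = ∑ i ∈ range K, c r i * β (j i) t)
    {g : ℝ} (hg : 0 < g) {Q D : ℝ} (hQ : 0 < Q) (hD : 0 < D) (hμ : ∀ k, 0 ≤ μ k)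
    (hμ1 : ∀ k, μ k ≤ D * g)
    (hK : (univ.filter fun k => g ≤ Q * μ k).card ≤ K) (L : ℕ) (a : Fin N → ℝ) {X : ℝ}
    (hX : 0 ≤ X) (ha : ∑ k, a k ^ 2 ≤ X ^ 2) {R : ℝ} (hR : 0 < R) {B : ℕ}
    (hB : C * N * X * R * (Q * D / 4) ^ L + 1 ≤ B) :
    ∃ (j p m : ℕ → ℕ), (∀ i < K, j i < N ∧ p i ≤ B ∧ m i ≤ B) ∧
      ∑ k, (μ k ^ L * (∑ i ∈ range K, ((p i : ℝ) - m i) * ψ k (j i)) / (R * (D * g) ^ L) -
        if 4 * g ≤ Q * μ k then a k else 0) ^ 2 ≤
        2 * (K / R) ^ 2 + 2 * (K * (C * N) * (X / 4 ^ L)) ^ 2 := by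
  classical
  obtain ⟨j, c, hj, hc, he⟩ := comb hb hN hC hg hQ hμ hK L a hX ha
  set G : ℝ := R * (D * g) ^ L with hG
  have hG0 : 0 < G := by positivity
  set z : ℕ → ℤ := fun i => ⌊c i * G⌋ with hz
  have hz1 : ∀ i, |(z i : ℝ) - c i * G| ≤ 1 := by
    intro i
    rw [abs_le]
    have h1 := Int.floor_le (c i * G)
    have h2 := Int.lt_floor_add_one (c i * G)
    simp only [hz]
    constructor <;> linarith
  have hzB : ∀ i < K, |(z i : ℝ)| ≤ B := by
    intro i hi
    have h1 := hz1 i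
    have h2 : |(z i : ℝ)| ≤ |c i * G| + 1 := by
      have h3 : (z i : ℝ) = c i * G + (z i - c i * G) := by ring
      have h4 := abs_add_le (c i * G) (z i - c i * G)
      rw [← h3] at h4
      linarith
    have h3 : |c i * G| ≤ C * N * X * R * (Q * D / 4) ^ L := by
      rw [abs_mul, abs_of_pos hG0]
      have h4 := mul_le_mul_of_nonneg_right (hc i hi) hG0.le
      refine h4.trans (le_of_eq ?_)
      rw [hG]
      have h5 : (Q / (4 * g)) ^ L * (D * g) ^ L = (Q * D / 4) ^ L := by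
        rw [← mul_pow]
        congr 1
        field_simp
      calc C * N * ((Q / (4 * g)) ^ L * X) * (R * (D * g) ^ L) =
          C * N * X * R * ((Q / (4 * g)) ^ L * (D * g) ^ L) := by ring
        _ = _ := by rw [h5]
    linarith
  refine ⟨j, fun i => (z i).toNat, fun i => (-z i).toNat, fun i hi => ⟨hj i hi, ?_, ?_⟩, ?_⟩
  · have h1 := hzB i hi
    have h2 : (((z i).toNat : ℤ) : ℝ) ≤ B := by
      rcases le_or_gt 0 (z i) with h3 | h3
      · rw [Int.toNat_of_nonneg h3]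
        exact (le_abs_self _).trans h1
      · rw [Int.toNat_of_nonpos h3.le]
        simp
    exact_mod_cast h2
  · have h1 := hzB i hi
    have h2 : (((-z i).toNat : ℤ) : ℝ) ≤ B := by
      rcases le_or_gt 0 (-z i) with h3 | h3
      · rw [Int.toNat_of_nonneg h3]
        push_cast
        exact (neg_le_abs _).trans h1
      · rw [Int.toNat_of_nonpos h3.le]
        simp
    exact_mod_cast h2
  have hpm : ∀ i, (((z i).toNat : ℕ) : ℝ) - (((-z i).toNat : ℕ) : ℝ) = z i := by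
    intro i
    have := Int.toNat_sub_toNat_neg (z i)
    have h2 : (((z i).toNat : ℤ) : ℝ) - (((-z i).toNat : ℤ) : ℝ) = z i := by exact_mod_cast this
    push_cast at h2
    exact_mod_cast h2
  simp only [hpm]
  -- the error of rounding
  have hr := col_sq hb hj (fun i => (z i : ℝ) / G - c i) (M := 1 / G) (fun i _ => by
    have h1 : (z i : ℝ) / G - c i = (z i - c i * G) / G := by field_simp
    rw [h1, abs_div, abs_of_pos hG0]
    exact div_le_div_of_nonneg_right (hz1 i) hG0.le)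
  have hterm : ∀ k, (μ k ^ L * (∑ i ∈ range K, (z i : ℝ) * ψ k (j i)) / G -
      if 4 * g ≤ Q * μ k then a k else 0) ^ 2 ≤
      2 * (((D * g) ^ L) ^ 2 * (∑ i ∈ range K, ((z i : ℝ) / G - c i) * ψ k (j i)) ^ 2) +
      2 * (μ k ^ L * (∑ i ∈ range K, c i * ψ k (j i)) -
        if 4 * g ≤ Q * μ k then a k else 0) ^ 2 := by
    intro k
    have h1 : μ k ^ L * (∑ i ∈ range K, (z i : ℝ) * ψ k (j i)) / G =
        μ k ^ L * (∑ i ∈ range K, ((z i : ℝ) / G - c i) * ψ k (j i)) +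
        μ k ^ L * (∑ i ∈ range K, c i * ψ k (j i)) := by
      rw [← mul_add, ← sum_add_distrib, mul_div_assoc, sum_div]
      congr 1
      exact sum_congr rfl fun i _ => by ring
    rw [h1]
    generalize (∑ i ∈ range K, ((z i : ℝ) / G - c i) * ψ k (j i)) = x
    generalize (μ k ^ L * (∑ i ∈ range K, c i * ψ k (j i))) = y
    generalize (if 4 * g ≤ Q * μ k then a k else 0) = t
    have h2 : (μ k ^ L * x) ^ 2 ≤ ((D * g) ^ L) ^ 2 * x ^ 2 := by
      rw [mul_pow]
      refine mul_le_mul_of_nonneg_right ?_ (sq_nonneg _)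
      exact pow_le_pow_left₀ (pow_nonneg (hμ k) L) (pow_le_pow_left₀ (hμ k) (hμ1 k) L) 2
    nlinarith [sq_nonneg (μ k ^ L * x - (y - t))]
  refine (sum_le_sum fun k _ => hterm k).trans ?_
  rw [sum_add_distrib, ← mul_sum, ← mul_sum, ← mul_sum]
  have h1 := mul_le_mul_of_nonneg_left hr (sq_nonneg ((D * g) ^ L))
  have h2 : ((D * g) ^ L) ^ 2 * (K * (1 / G)) ^ 2 = (K / R) ^ 2 := by
    rw [← mul_pow, hG]
    congr 1
    field_simp
  rw [h2] at h1
  linarith

end

end Pool.Agent.K6.H49.LTR
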