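import Pool.Agent.K6.H49.UGX.Defs

/-!
# Games whose constraint graph has low threshold rank
-/

set_option autoImplicit false

namespace Pool.Agent.K6.H49.LTR

/-- At most `k` singular values of the constraint graph exceed `s`: there are `k` vectors such that
`|fᵀ M g| ≤ s ‖f‖ ‖g‖` for the biadjacency matrix `M`, all vectors `f` orthogonal to them, and all
vectors `g` (by Courant and Fischer this says that the singular value number `k + 1` of `M` is at
most `s`). For `k = 1` and a regular graph this is a bound for the second singular value. -/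
def RankLE (G : ℕ × List (ℕ × ℕ × List ℕ)) (k : ℕ) (s : ℝ) : Prop :=
  ∃ a : Fin k → ℕ → ℝ, ∀ f g : ℕ → ℝ,
    (∀ i, ∑ u ∈ Finset.range G.1, a i u * f u = 0) →
    |(G.2.map fun e => f e.1 * g e.2.1).sum| ≤
      s * (√(∑ u ∈ Finset.range G.1, f u ^ 2) * √(∑ v ∈ Finset.range G.1, g v ^ 2))

end Pool.Agent.K6.H49.LTR
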