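import Pool.Agent.K6.H49.LTR.AlgP
import Pool.Agent.K6.H49.LTR.Defs
import Pool.Agent.K6.H49.UGQ.AlgF
import Pool.Agent.K6.H49.TTO.Defs

/-!
# Unique games and 2-to-1 games on graphs of low threshold rank
-/

set_option autoImplicit false

open Finset

namespace Pool.Agent.K6.H49.LTR

open Pool.Agent.NPC
open Pool.Agent.K6.H49.UGX (Edge)
open Pool.Agent.K6.H49.UGQ

theorem lr_of {G : UGX.Game} {k d : ℕ} {σ : ℝ} (h : RankLE G k (σ * d)) : Lr G.1 d k σ G.2 := by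
  obtain ⟨a, ha⟩ := h
  refine ⟨fun i u => if hi : i < k then a ⟨i, hi⟩ u else 0, fun f g hf => ?_⟩
  refine ha f g fun i => ?_
  have := hf i i.2
  simpa using this

theorem xg_game {G : UGX.Game} {d q D : ℕ} (hne : G.2 ≠ [])
    (hE : ∀ e ∈ G.2, e.1 < G.1 ∧ e.2.1 < G.1 ∧ TabD q D e.2.2) (hR : UGX.Regular G d) :
    Xg G.1 d q D G.2 := by
  obtain ⟨e0, he0⟩ := List.exists_mem_of_ne_nil _ hne
  refine ⟨?_, ?_, ?_, ?_, ?_, ?_⟩
  · exact lt_of_le_of_lt (Nat.zero_le _) (hE e0 he0).1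
  · have h1 := (hR e0.1 (hE e0 he0).1).1
    rw [← h1]
    exact List.countP_pos_iff.2 ⟨e0, he0, by simp⟩
  · intro e he
    exact ⟨(hE e he).1, (hE e he).2.1⟩
  · intro e he
    exact (hE e he).2.2
  · intro u hu
    rw [S_countP, ← (hR u hu).1]
  · intro u hu
    rw [S_countP, ← (hR u hu).2]

theorem tabD_perm {q : ℕ} {t : List ℕ} (h1 : t.length = q) (h2 : t.Nodup) (h3 : ∀ b ∈ t, b < q) :
    TabD q 1 t := ⟨h1, fun b => ⟨h3 b, List.nodup_iff_count_le_one.1 h2 b⟩⟩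

/-- The choice of the level. -/
theorem choose_lev {D m0 : ℕ} (hm : 0 < m0) {σ : ℝ}
    (hσ : 8 * D * σ * m0 ≤ 1) {Qm : ℕ} (hQm : m0 ≤ Qm) : ∃ Q : ℕ, m0 ≤ Q ∧ Q ≤ Qm ∧
      8 * D * σ * Q ≤ 1 ∧ 1 / √(Q : ℝ) ≤ √(16 * D * σ) + 1 / √(Qm : ℝ) := by
  rcases le_or_gt (8 * D * σ * Qm) 1 with hcase | hcase
  · exact ⟨Qm, hQm, le_rfl, hcase, le_add_of_nonneg_left (Real.sqrt_nonneg _)⟩
  have hm' : (1 : ℝ) ≤ m0 := by exact_mod_cast hm
  have hp : 0 < 8 * D * σ := by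
    by_contra hcon
    push Not at hcon
    have h1 : (0 : ℝ) ≤ Qm := by positivity
    nlinarith
  have h1 : (m0 : ℝ) ≤ 1 / (8 * D * σ) := by
    rw [le_div_iff₀ hp]
    linarith
  set Q := ⌊1 / (8 * D * σ)⌋₊ with hQ
  have hQ1 : m0 ≤ Q := Nat.le_floor h1
  have hQ2 : (Q : ℝ) ≤ 1 / (8 * D * σ) := Nat.floor_le (by linarith)
  have hQ3 : 1 / (8 * D * σ) < Q + 1 := Nat.lt_floor_add_one _
  have hQ1' : (1 : ℝ) ≤ Q := by
    have : (m0 : ℝ) ≤ Q := by exact_mod_cast hQ1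
    linarith
  refine ⟨Q, hQ1, ?_, ?_, ?_⟩
  · have h2 : (Q : ℝ) ≤ Qm := by
      refine hQ2.trans ?_
      rw [div_le_iff₀ hp]
      linarith
    exact_mod_cast h2
  · rw [le_div_iff₀ hp] at hQ2
    linarith
  · have h2 : 1 / (8 * D * σ) ≤ 2 * Q := by linarith
    rw [div_le_iff₀ hp] at h2
    have hsq : 0 < √(Q : ℝ) := Real.sqrt_pos.2 (by linarith)
    have h3 : 1 / √(Q : ℝ) ≤ √(16 * D * σ) := by
      refine Real.le_sqrt_of_sq_le ?_
      rw [div_pow, Real.sq_sqrt (by linarith), one_pow, div_le_iff₀ (by linarith)]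
      linarith
    have h4 : 0 ≤ 1 / √(Qm : ℝ) := by positivity
    linarith

/-- The best labeling of the list is as good as every one of the list. -/
theorem best_out {n d q D : ℕ} {l : List Edge} (h : Xg n d q D l) (hq : 0 < q)
    {K T cB e : ℕ} {c : List ℕ × List ℕ} (hc : c ∈ listL K T cB e n q l) :
    (∀ u < n, toF (algL K T cB e n q l).1 u < q) ∧
    (∀ u < n, toF (algL K T cB e n q l).2 u < q) ∧
    V l (toF (algL K T cB e n q l).1) (toF (algL K T cB e n q l).2) ≤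
      V l (toF c.1) (toF c.2) := by
  obtain ⟨h1, h2⟩ := best_le l hc
  have h3 := listL_lt h hq h1
  have h4 := listL_lt h hq hc
  refine ⟨h3.1, h3.2, ?_⟩
  unfold algL
  rw [← nvLD h h3.1, ← nvLD h h4.1]
  exact_mod_cast h2

theorem V_congrD {n d q D : ℕ} {l : List Edge} (h : Xg n d q D l) {f f' g g' : ℕ → ℕ}
    (hf : ∀ u < n, f u = f' u) (hg : ∀ u < n, g u = g' u) : V l f g = V l f' g' := by
  unfold V
  refine S_congr fun e he => ?_
  unfold vio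
  rw [hf _ (h.lt e he).1, hg _ (h.lt e he).2]

theorem nn_eq {n d q D : ℕ} {l : List Edge} (h : Xg n d q D l) : nn (n, l) = n := by
  unfold nn
  refine Nat.min_eq_left ?_
  have h1 := len_eq h
  have h2 := h.dpos
  simp only
  rw [h1]
  exact Nat.le_mul_of_pos_left _ h2

/-- The algorithm as a function on bit strings. -/
theorem exists_alg (K T cB e q : ℕ) : ∃ A : List Bool → List Bool, PolyTime A ∧
    ∀ G : UGX.Game, A (bits G) = bits (algoL K T cB e q G) := by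
  refine ⟨_, polyTime_opt (g := fun x => (unbits UGX.Game x).map (algoL K T cB e q)) ?_,
    fun G => ?_⟩
  · exact Poly.optMap_fp (h := fun _ G => algoL K T cB e q G) poly_unbits
      ((poly_algoL K T cB e q).comp (Poly.snd Poly.id))
  · simp only [unbits_bits, Option.map_some]

/-- **Unique games on graphs of low threshold rank.** -/
theorem algorithm_unique : ∃ C : ℝ, 0 < C ∧ ∀ (q : ℕ) [NeZero q] (k : ℕ) (δ : ℝ), 0 < δ →
    ∃ A : List Bool → List Bool, PolyTime A ∧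
    ∀ (G : UGX.Game) (d : ℕ) (σ : ℝ), UGX.IsUnique q G → UGX.Regular G d → 0 ≤ σ → C * σ ≤ 1 →
      RankLE G k (σ * d) → ∃ w w' : List ℕ, A (bits G) = bits (w, w') ∧ ∀ f g : ℕ → Fin q,
        UGX.viol G (labq q w) (labq q w') ≤ (1 + C * (√σ + δ)) * UGX.viol G f g := by
  refine ⟨288, by norm_num, fun q _ k δ hδ => ?_⟩
  have hq : 0 < q := Nat.pos_of_ne_zero (NeZero.ne q)
  obtain ⟨Qm, hQm1⟩ := exists_nat_ge (max 36 (1 / δ ^ 2))
  have hQ1 : (36 : ℝ) ≤ Qm := (le_max_left _ _).trans hQm1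
  have hQ2 : 1 / δ ^ 2 ≤ Qm := (le_max_right _ _).trans hQm1
  have hQm : 36 ≤ Qm := by exact_mod_cast hQ1
  have hδ1 : 1 / √(Qm : ℝ) ≤ δ := by
    rw [div_le_iff₀ (Real.sqrt_pos.2 (by linarith))]
    rw [div_le_iff₀ (by positivity)] at hQ2
    have h1 : 1 ≤ (δ * √(Qm : ℝ)) ^ 2 := by
      rw [mul_pow, Real.sq_sqrt (by linarith)]
      linarith
    have h2 : 0 ≤ δ * √(Qm : ℝ) := by positivity
    nlinarith
  obtain ⟨Cp, hCp⟩ := pivot (4 * 1 ^ 2 * (k * q) * Qm ^ 2)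
  set K := 4 * 1 ^ 2 * (k * q) * Qm ^ 2 with hK
  set T := 2 * K * Cp * q * Qm with hT
  obtain ⟨A, hA, hA2⟩ := exists_alg K T
    (Cp * q * (2 * (K + 1) * Qm) * 2 ^ (Qm * 1) * (Qm * 1) ^ T + 1) (Qm * 1 + 2) q
  refine ⟨A, hA, fun G d σ hG hR hσ0 hσ1 hS => ⟨(algoL K T
    (Cp * q * (2 * (K + 1) * Qm) * 2 ^ (Qm * 1) * (Qm * 1) ^ T + 1) (Qm * 1 + 2) q G).1, (algoL K T
    (Cp * q * (2 * (K + 1) * Qm) * 2 ^ (Qm * 1) * (Qm * 1) ^ T + 1) (Qm * 1 + 2) q G).2,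
    hA2 G, fun f g => ?_⟩⟩
  have hX : Xg G.1 d q 1 G.2 := xg_game hG.1 (fun e he => by
    obtain ⟨h1, h2, h3, h4, h5⟩ := hG.2 e he
    exact ⟨h1, h2, tabD_perm h3 h4 h5⟩) hR
  obtain ⟨Q, q1, q2, q3, q4⟩ := choose_lev (D := 1) (m0 := 36) (σ := σ) (by norm_num)
    (by push_cast; linarith) hQm
  obtain ⟨c, hc, hbL, hlt, ψ, μ, p, t, hb, hp, hmax, ht⟩ := exists_cand hX hσ0 (lr_of hS)
    (by norm_num) hq q2 (by omega) q3 le_rfl hCp le_rfl (x := nf f) fun u _ => (f u).isLt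
  have hQ36 : (36 : ℝ) ≤ Q := by exact_mod_cast q1
  have hrat := ratio hX hb (x := nf f) (y := nf g) (fun u _ => (f u).isLt)
    (fun u _ => (g u).isLt) hlt hp hmax hQ36 ht le_rfl
  have hle := BestLD hX hbL (f' := nf f) fun u _ => (f u).isLt
  obtain ⟨b1, b2, b3⟩ := best_out hX hq hc
  have hn : (0 : ℝ) < G.1 := by exact_mod_cast hX.npos
  have hd : (0 : ℝ) < d := by exact_mod_cast hX.dpos
  have hlen : (G.2.length : ℝ) = d * G.1 := by
    rw [len_eq hX]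
    push_cast
    rfl
  have hdn : (0 : ℝ) < d * G.1 := by positivity
  have hV : ∀ p r : ℕ → Fin q, UGX.viol G p r = V G.2 (nf p) (nf r) / (d * G.1) := by
    intro p r
    unfold UGX.viol
    rw [← numSat_V G p r, ← hlen, ← numSat_V G p r]
    congr 1
    ring
  have hout : algoL K T (Cp * q * (2 * (K + 1) * Qm) * 2 ^ (Qm * 1) * (Qm * 1) ^ T + 1)
      (Qm * 1 + 2) q G = algL K T (Cp * q * (2 * (K + 1) * Qm) * 2 ^ (Qm * 1) *
        (Qm * 1) ^ T + 1) (Qm * 1 + 2) G.1 q G.2 := by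
    unfold algoL
    have : nn G = G.1 := nn_eq hX
    rw [this]
  rw [hout]
  generalize algL K T (Cp * q * (2 * (K + 1) * Qm) * 2 ^ (Qm * 1) * (Qm * 1) ^ T + 1)
      (Qm * 1 + 2) G.1 q G.2 = out at b1 b2 b3
  rw [hV, hV f g, V_congrD hX (fun u hu => nf_labq (b1 u hu)) (fun u hu => nf_labq (b2 u hu)),
    div_le_iff₀ hdn]
  have hV0 := V_nonneg G.2 (nf f) (nf g)
  have hfin : (1 + 29 / √(Q : ℝ)) * V G.2 (nf f) (nf g) ≤
      (1 + 288 * (√σ + δ)) * V G.2 (nf f) (nf g) := by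
    refine mul_le_mul_of_nonneg_right ?_ hV0
    have e1 : 29 / √(Q : ℝ) = 29 * (1 / √(Q : ℝ)) := by ring
    have e2 : √(16 * ((1 : ℕ) : ℝ) * σ) = 4 * √σ := by
      rw [Nat.cast_one, mul_one, Real.sqrt_mul (by norm_num)]
      congr 1
      rw [show (16 : ℝ) = 4 ^ 2 by norm_num]
      exact Real.sqrt_sq (by norm_num)
    rw [e2] at q4
    have e3 := Real.sqrt_nonneg σ
    rw [e1]
    linarith
  have e4 : (1 + 288 * (√σ + δ)) * (V G.2 (nf f) (nf g) / (d * G.1)) * (d * G.1) =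
      (1 + 288 * (√σ + δ)) * V G.2 (nf f) (nf g) := by
    field_simp
  rw [e4]
  exact b3.trans (hle.trans (hrat.trans hfin))

/-- **2-to-1 games on graphs of low threshold rank.** -/
theorem algorithm_two : ∃ C : ℝ, 0 < C ∧ ∀ (q : ℕ) [NeZero q] (k : ℕ) (δ : ℝ), 0 < δ →
    ∃ A : List Bool → List Bool, PolyTime A ∧
    ∀ (G : TTO.Game) (d : ℕ) (σ : ℝ), TTO.IsTwoToOne q G → TTO.Regular G d → 0 ≤ σ →
      RankLE G k (σ * d) → ∃ w w' : List ℕ, A (bits G) = bits (w, w') ∧ ∀ f g : ℕ → Fin q,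
        (TTO.numSat G f g : ℝ) - C * (√σ + δ) * G.2.length ≤
          TTO.numSat G (labq q w) (labq q w') := by
  refine ⟨30, by norm_num, fun q _ k δ hδ => ?_⟩
  have hq : 0 < q := Nat.pos_of_ne_zero (NeZero.ne q)
  obtain ⟨Qm, hQm1⟩ := exists_nat_ge (max 1 (1 / δ ^ 2))
  have hQ1 : (1 : ℝ) ≤ Qm := (le_max_left _ _).trans hQm1
  have hQ2 : 1 / δ ^ 2 ≤ Qm := (le_max_right _ _).trans hQm1
  have hQm : 1 ≤ Qm := by exact_mod_cast hQ1
  have hδ1 : 1 / √(Qm : ℝ) ≤ δ := by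
    rw [div_le_iff₀ (Real.sqrt_pos.2 (by linarith))]
    rw [div_le_iff₀ (by positivity)] at hQ2
    have h1 : 1 ≤ (δ * √(Qm : ℝ)) ^ 2 := by
      rw [mul_pow, Real.sq_sqrt (by linarith)]
      linarith
    have h2 : 0 ≤ δ * √(Qm : ℝ) := by positivity
    nlinarith
  obtain ⟨Cp, hCp⟩ := pivot (4 * 2 ^ 2 * (k * q) * Qm ^ 2)
  set K := 4 * 2 ^ 2 * (k * q) * Qm ^ 2 with hK
  set T := 2 * K * Cp * q * Qm with hT
  obtain ⟨A, hA, hA2⟩ := exists_alg K T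
    (Cp * q * (2 * (K + 1) * Qm) * 2 ^ (Qm * 2) * (Qm * 2) ^ T + 1) (Qm * 2 + 2) q
  refine ⟨A, hA, fun G d σ hG hR hσ0 hS => ⟨(algoL K T
    (Cp * q * (2 * (K + 1) * Qm) * 2 ^ (Qm * 2) * (Qm * 2) ^ T + 1) (Qm * 2 + 2) q G).1, (algoL K T
    (Cp * q * (2 * (K + 1) * Qm) * 2 ^ (Qm * 2) * (Qm * 2) ^ T + 1) (Qm * 2 + 2) q G).2,
    hA2 G, fun f g => ?_⟩⟩
  have hle1 : (TTO.numSat G f g : ℝ) ≤ G.2.length := by
    have : TTO.numSat G f g ≤ G.2.length := List.countP_le_length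
    exact_mod_cast this
  have hsq0 := Real.sqrt_nonneg σ
  rcases le_or_gt σ (1 / 16) with hσ | hσ
  swap
  · -- a trivial bound
    have h1 : 1 / 4 ≤ √σ := by
      refine Real.le_sqrt_of_sq_le ?_
      norm_num
      linarith
    have h2 : (0 : ℝ) ≤ G.2.length := by positivity
    have h3 : 1 * (G.2.length : ℝ) ≤ 30 * (√σ + δ) * G.2.length :=
      mul_le_mul_of_nonneg_right (by linarith) h2
    have h4 : (0 : ℝ) ≤ TTO.numSat G (labq q (algoL K T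
      (Cp * q * (2 * (K + 1) * Qm) * 2 ^ (Qm * 2) * (Qm * 2) ^ T + 1) (Qm * 2 + 2) q G).1)
      (labq q (algoL K T
      (Cp * q * (2 * (K + 1) * Qm) * 2 ^ (Qm * 2) * (Qm * 2) ^ T + 1) (Qm * 2 + 2) q G).2) := by
      positivity
    linarith
  have hX : Xg G.1 d q 2 G.2 := xg_game hG.1 (fun e he => by
    obtain ⟨h1, h2, h3, h4⟩ := hG.2 e he
    exact ⟨h1, h2, h3, h4⟩) hR
  obtain ⟨Q, q1, q2, q3, q4⟩ := choose_lev (D := 2) (m0 := 1) (σ := σ) (by norm_num)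
    (by push_cast; linarith) hQm
  obtain ⟨c, hc, hbL, hlt, ψ, μ, p, t, hb, hp, hmax, ht⟩ := exists_cand hX hσ0 (lr_of hS)
    (by norm_num) hq q2 (by omega) q3 le_rfl hCp le_rfl (x := nf f) fun u _ => (f u).isLt
  have hn : (0 : ℝ) < G.1 := by exact_mod_cast hX.npos
  have hn1 : (1 : ℝ) ≤ G.1 := by exact_mod_cast hX.npos
  have hd : (0 : ℝ) < d := by exact_mod_cast hX.dpos
  have hd1 : (1 : ℝ) ≤ d := by exact_mod_cast hX.dpos
  have hQ0 : (0 : ℝ) < Q := by exact_mod_cast (by omega : 0 < Q)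
  have hadd := additive hX hb (x := nf f) (y := nf g) (fun u _ => (f u).isLt)
    (fun u _ => (g u).isLt) hlt hp hmax hQ0 ht (by
      rw [div_le_div_iff₀ (by positivity) hQ0]
      have : (1 : ℝ) ≤ G.1 * d := by nlinarith
      nlinarith)
  have hle := BestLD hX hbL (f' := nf f) fun u _ => (f u).isLt
  obtain ⟨b1, b2, b3⟩ := best_out hX hq hc
  have hlen : (G.2.length : ℝ) = d * G.1 := by
    rw [len_eq hX]
    push_cast
    rfl
  have hdn : (0 : ℝ) < d * G.1 := by positivity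
  have hout : algoL K T (Cp * q * (2 * (K + 1) * Qm) * 2 ^ (Qm * 2) * (Qm * 2) ^ T + 1)
      (Qm * 2 + 2) q G = algL K T (Cp * q * (2 * (K + 1) * Qm) * 2 ^ (Qm * 2) *
        (Qm * 2) ^ T + 1) (Qm * 2 + 2) G.1 q G.2 := by
    unfold algoL
    have : nn G = G.1 := nn_eq hX
    rw [this]
  rw [hout]
  generalize algL K T (Cp * q * (2 * (K + 1) * Qm) * 2 ^ (Qm * 2) * (Qm * 2) ^ T + 1)
      (Qm * 2 + 2) G.1 q G.2 = out at b1 b2 b3
  have s1 := numSat_V G f g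
  have s2 := numSat_V G (labq q out.1) (labq q out.2)
  rw [V_congrD hX (fun u hu => nf_labq (b1 u hu)) (fun u hu => nf_labq (b2 u hu))] at s2
  have t1 : TTO.numSat G f g = UGX.numSat G f g := rfl
  have t2 : TTO.numSat G (labq q out.1) (labq q out.2) =
      UGX.numSat G (labq q out.1) (labq q out.2) := rfl
  rw [t1, t2]
  have hfin : √((16 + 4 * ((2 : ℕ) : ℝ)) / Q) * (d * G.1) ≤ 30 * (√σ + δ) * (d * G.1) := by
    refine mul_le_mul_of_nonneg_right ?_ hdn.le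
    have e1 : √((16 + 4 * ((2 : ℕ) : ℝ)) / Q) ≤ 5 * (1 / √(Q : ℝ)) := by
      rw [Real.sqrt_div (by norm_num), mul_one_div]
      refine div_le_div_of_nonneg_right ?_ (Real.sqrt_nonneg _)
      rw [Real.sqrt_le_left (by norm_num)]
      norm_num
    have e2 : √(16 * ((2 : ℕ) : ℝ) * σ) ≤ 6 * √σ := by
      rw [Real.sqrt_mul (by norm_num)]
      refine mul_le_mul_of_nonneg_right ?_ hsq0
      rw [Real.sqrt_le_left (by norm_num)]
      norm_num
    have e3 : 1 / √(Q : ℝ) ≤ 6 * √σ + δ := q4.trans (add_le_add e2 hδ1)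
    refine e1.trans ?_
    linarith
  have hch := b3.trans (hle.trans (hadd.trans (add_le_add le_rfl hfin)))
  have s2' : (UGX.numSat G (labq q out.1) (labq q out.2) : ℝ) +
      V G.2 (toF out.1) (toF out.2) = G.2.length := s2
  rw [hlen] at s1 s2' ⊢
  linarith

end Pool.Agent.K6.H49.LTR
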