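import Pool.Agent.K6.H49.LTR.Cmb
import Pool.Agent.K6.H49.UGS.Rnd

/-!
# The label-extended graph for tables with small fibers
-/

set_option autoImplicit false

open Finset

namespace Pool.Agent.K6.H49.LTR

open Pool.Agent.K6.H49.UGX (Edge)
open Pool.Agent.K6.H49.UGQ

section General

variable {N : ℕ} {E : List (ℕ × ℕ)} {ψ : Fin N → ℕ → ℝ} {μ : Fin N → ℝ}

theorem quadB (hE : ∀ p ∈ E, p.1 < N ∧ p.2 < N) (hb : Bs N E ψ μ) (k m : Fin N) :
    ∑ s ∈ range N, At E (ψ k) s * At E (ψ m) s = if k = m then μ m else 0 := by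
  rw [← inner_Mo hE]
  have : ∑ r ∈ range N, ψ k r * Mo E (ψ m) r = μ m * ∑ r ∈ range N, ψ k r * ψ m r := by
    rw [mul_sum]
    refine sum_congr rfl fun r hr => ?_
    rw [hb.eig m r (mem_range.1 hr)]
    ring
  rw [this, hb.orth]
  split_ifs <;> simp

theorem muB_nonneg (hE : ∀ p ∈ E, p.1 < N ∧ p.2 < N) (hb : Bs N E ψ μ) (k : Fin N) :
    0 ≤ μ k := by
  have := quadB hE hb k k
  rw [if_pos rfl] at this
  rw [← this]
  exact sum_nonneg fun s _ => mul_self_nonneg _

end General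

section

variable {n d q D k : ℕ} {σ : ℝ} {l : List Edge}

theorem extD_lt (h : Xg n d q D l) : ∀ p ∈ UGQ.ext q l, p.1 < n * q ∧ p.2 < n * q := by
  intro p hp
  unfold UGQ.ext at hp
  simp only [List.mem_flatMap, List.mem_map, List.mem_range] at hp
  obtain ⟨e, he, i, hi, rfl⟩ := hp
  obtain ⟨h1, h2⟩ := h.lt e he
  exact ⟨node_lt h1 hi, node_lt h2 (tbD_lt (h.tab e he) hi)⟩

theorem SD_left (h : Xg n d q D l) (F : ℕ → ℝ) :
    S (fun p => F p.1) (UGQ.ext q l) = d * ∑ r ∈ range (n * q), F r := by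
  rw [S_ext, sum_node]
  exact h.sum_left fun u => ∑ i ∈ range q, F (u * q + i)

theorem colD (h : Xg n d q D l) {s : ℕ} (hs : s < n * q) :
    S (fun p => if p.2 = s then (1 : ℝ) else 0) (UGQ.ext q l) ≤ D * d := by
  have hq : 0 < q := by
    rcases Nat.eq_zero_or_pos q with h0 | h0
    · rw [h0, mul_zero] at hs; omega
    · exact h0
  have hsu : s / q < n := Nat.div_lt_of_lt_mul (by rw [mul_comm]; exact hs)
  rw [S_ext]
  have h1 : S (fun e : Edge => ∑ i ∈ range q, if e.2.1 * q + tb e i = s then (1 : ℝ) else 0) l ≤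
      S (fun e : Edge => D * if e.2.1 = s / q then (1 : ℝ) else 0) l := by
    refine S_le fun e he => ?_
    have h2 : ∀ i ∈ range q, (e.2.1 * q + tb e i = s ↔ e.2.1 = s / q ∧ tb e i = s % q) := by
      intro i hi
      have h3 := tbD_lt (h.tab e he) (mem_range.1 hi)
      have h4 : s = s / q * q + s % q := by rw [mul_comm]; exact (Nat.div_add_mod s q).symm
      conv_lhs => rw [h4]
      exact UGS.node_inj h3 (Nat.mod_lt _ hq)
    by_cases h5 : e.2.1 = s / q
    · rw [if_pos h5, mul_one]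
      have h6 : ∑ i ∈ range q, (if e.2.1 * q + tb e i = s then (1 : ℝ) else 0) =
          ∑ i ∈ range q, if tb e i = s % q then (1 : ℝ) else 0 := by
        refine sum_congr rfl fun i hi => ?_
        by_cases h7 : tb e i = s % q
        · rw [if_pos ((h2 i hi).2 ⟨h5, h7⟩), if_pos h7]
        · rw [if_neg fun h8 => h7 ((h2 i hi).1 h8).2, if_neg h7]
      rw [h6, ← sum_filter, sum_const, nsmul_eq_mul, mul_one]
      exact_mod_cast fib_le (h.tab e he) (s % q)
    · rw [if_neg h5, mul_zero]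
      refine le_of_eq (sum_eq_zero fun i hi => ?_)
      rw [if_neg fun h8 => h5 ((h2 i hi).1 h8).1]
  refine h1.trans ?_
  rw [S_mul, h.right _ hsu]

theorem AtD_sq (h : Xg n d q D l) (x : ℕ → ℝ) :
    ∑ s ∈ range (n * q), At (UGQ.ext q l) x s ^ 2 ≤ D * d ^ 2 * ∑ r ∈ range (n * q), x r ^ 2 := by
  have h1 : ∀ s < n * q, At (UGQ.ext q l) x s ^ 2 ≤
      D * d * S (fun p => if p.2 = s then x p.1 ^ 2 else 0) (UGQ.ext q l) := by
    intro s hs
    have h2 := S_cs (fun p : ℕ × ℕ => if p.2 = s then (1 : ℝ) else 0)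
      (fun p => if p.2 = s then x p.1 else 0) (UGQ.ext q l)
    have e1 : S (fun p : ℕ × ℕ => (if p.2 = s then (1 : ℝ) else 0) *
        (if p.2 = s then x p.1 else 0)) (UGQ.ext q l) = At (UGQ.ext q l) x s :=
      S_congr fun p _ => by split_ifs <;> simp
    have e2 : S (fun p : ℕ × ℕ => (if p.2 = s then (1 : ℝ) else 0) ^ 2) (UGQ.ext q l) ≤ D * d := by
      refine le_trans (le_of_eq (S_congr fun p _ => ?_)) (colD h hs)
      split_ifs <;> norm_num
    have e3 : S (fun p : ℕ × ℕ => (if p.2 = s then x p.1 else 0) ^ 2) (UGQ.ext q l) =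
        S (fun p => if p.2 = s then x p.1 ^ 2 else 0) (UGQ.ext q l) :=
      S_congr fun p _ => by split_ifs <;> simp
    rw [e1, e3] at h2
    refine h2.trans (mul_le_mul_of_nonneg_right e2 (S_nonneg fun p _ => ?_))
    split_ifs
    · exact sq_nonneg _
    · exact le_rfl
  calc _ ≤ ∑ s ∈ range (n * q), D * d *
        S (fun p => if p.2 = s then x p.1 ^ 2 else 0) (UGQ.ext q l) :=
        sum_le_sum fun s hs => h1 s (mem_range.1 hs)
    _ = D * d * S (fun p => x p.1 ^ 2) (UGQ.ext q l) := by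
        rw [← mul_sum, S_split (fun p => p.2) (fun p hp => (extD_lt h p hp).2)]
    _ = _ := by
        rw [SD_left h fun r => x r ^ 2]
        ring

variable {ψ : Fin (n * q) → ℕ → ℝ} {μ : Fin (n * q) → ℝ}

theorem muD_le (h : Xg n d q D l) (hb : Bs (n * q) (UGQ.ext q l) ψ μ) (j : Fin (n * q)) :
    μ j ≤ D * (d : ℝ) ^ 2 := by
  have h1 := quadB (extD_lt h) hb j j
  rw [if_pos rfl] at h1
  have h2 := AtD_sq h (ψ j)
  have h3 := hb.orth j j
  rw [if_pos rfl] at h3
  have h4 : ∑ r ∈ range (n * q), ψ j r ^ 2 = 1 := by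
    rw [← h3]
    exact sum_congr rfl fun r _ => sq _
  rw [h4, mul_one] at h2
  rw [← h1]
  refine le_trans (le_of_eq ?_) h2
  exact sum_congr rfl fun s _ => (sq _).symm

/-- **The number of the large eigenvalues.** -/
theorem card_low (h : Xg n d q D l) (hσ : 0 ≤ σ) (hk : Lr n d k σ l) (hD : 0 < D)
    (hb : Bs (n * q) (UGQ.ext q l) ψ μ) {Q : ℕ} (hQ : 0 < Q) (hc : 8 * D * σ * Q ≤ 1) :
    (univ.filter fun j => (d : ℝ) ^ 2 ≤ Q * μ j).card ≤ 4 * D ^ 2 * (k * q) * Q ^ 2 := by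
  have hd : (0 : ℝ) < d := by exact_mod_cast h.dpos
  have hQ' : (0 : ℝ) < Q := by exact_mod_cast hQ
  set E := UGQ.ext q l with hE
  set s := univ.filter fun j => (d : ℝ) ^ 2 ≤ Q * μ j with hs
  set φ : Fin s.card → Fin (n * q) := fun j => s.orderEmbOfFin rfl j with hφ
  have hφinj : ∀ j m, φ j = φ m → j = m := fun j m hjm => (s.orderEmbOfFin rfl).injective hjm
  have hmem : ∀ j, (d : ℝ) ^ 2 ≤ Q * μ (φ j) := by
    intro j
    have := orderEmbOfFin_mem s rfl j
    exact (mem_filter.1 this).2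
  have mpos : ∀ j, 0 < μ (φ j) := by
    intro j
    have h1 := hmem j
    have h2 : 0 < (d : ℝ) ^ 2 := by positivity
    by_contra hcon
    push Not at hcon
    nlinarith
  have o2 : ∀ j k, ∑ r ∈ range (n * q), (At E (ψ (φ j)) r / √(μ (φ j))) *
      (At E (ψ (φ k)) r / √(μ (φ k))) = if j = k then 1 else 0 := by
    intro j k
    have e1 : ∀ r, (At E (ψ (φ j)) r / √(μ (φ j))) * (At E (ψ (φ k)) r / √(μ (φ k))) =
        (At E (ψ (φ j)) r * At E (ψ (φ k)) r) / (√(μ (φ j)) * √(μ (φ k))) := fun r =>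
      div_mul_div_comm _ _ _ _
    simp only [e1]
    rw [← sum_div, quadB (extD_lt h) hb]
    by_cases hjk : j = k
    · rw [if_pos (by rw [hjk]), if_pos hjk, hjk, Real.mul_self_sqrt (mpos k).le,
        div_self (mpos k).ne']
    · rw [if_neg fun h' => hjk (hφinj j k h'), if_neg hjk, zero_div]
  have hsq : 0 < √(Q : ℝ) := Real.sqrt_pos.2 hQ'
  have hδ : (0 : ℝ) < 1 / √Q := by positivity
  have hδ2 : (1 / √(Q : ℝ)) ^ 2 = 1 / Q := by
    rw [div_pow, Real.sq_sqrt hQ'.le]
    norm_num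
  have h5 := count_low h hσ hk hD (fun j => ψ (φ j)) (fun j r => At E (ψ (φ j)) r / √(μ (φ j)))
    (by
      intro j k
      rw [hb.orth]
      by_cases hjk : j = k
      · rw [if_pos hjk, if_pos (by rw [hjk])]
      · rw [if_neg hjk, if_neg fun h' => hjk (hφinj j k h')]) o2 hδ
    (by
      rw [hδ2, le_div_iff₀ (by positivity)]
      linarith)
    (by
      intro j
      have e1 : Bf q l (ψ (φ j)) (fun r => At E (ψ (φ j)) r / √(μ (φ j))) = √(μ (φ j)) := by
        rw [← Bi_ext, ← adj_right (extD_lt h)]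
        have e2 : ∀ r, At E (ψ (φ j)) r / √(μ (φ j)) * At (UGQ.ext q l) (ψ (φ j)) r =
            (At E (ψ (φ j)) r * At E (ψ (φ j)) r) / √(μ (φ j)) := fun r => by ring
        simp only [e2]
        rw [← sum_div, quadB (extD_lt h) hb, if_pos rfl, Real.div_sqrt]
      rw [e1]
      refine Real.le_sqrt_of_sq_le ?_
      rw [mul_pow, hδ2]
      rw [one_div, inv_mul_le_iff₀ (by positivity)]
      exact hmem j)
  have hδ4 : (1 / √(Q : ℝ)) ^ 4 = 1 / Q ^ 2 := by
    have : (1 / √(Q : ℝ)) ^ 4 = ((1 / √(Q : ℝ)) ^ 2) ^ 2 := by ring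
    rw [this, hδ2, div_pow, one_pow]
  rw [hδ4, mul_one_div, div_le_iff₀ (by positivity)] at h5
  have h6 : (s.card : ℝ) ≤ ((4 * D ^ 2 * (k * q) * Q ^ 2 : ℕ) : ℝ) := by
    push_cast
    exact h5
  exact_mod_cast h6

/-! ### Labelings -/

theorem vioD (h : Xg n d q D l) {e : Edge} (he : e ∈ l) {f g : ℕ → ℕ} (hf : f e.1 < q) :
    vio f g e = if tb e (f e.1) = g e.2.1 then 0 else 1 := by
  unfold vio
  rw [tbD_get (h.tab e he) hf]
  simp only [Option.some.injEq]

theorem BiD (h : Xg n d q D l) {x y : ℕ → ℕ} (hx : ∀ u < n, x u < q) :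
    Bi (UGQ.ext q l) (chi q x) (chi q y) = d * n - V l x y := by
  rw [Bi_ext]
  unfold Bf V
  rw [← h.count, ← S_sub]
  refine S_congr fun e he => ?_
  obtain ⟨hu, hv⟩ := h.lt e he
  have h6 : ∀ i ∈ range q, chi q x (e.1 * q + i) * chi q y (e.2.1 * q + tb e i) =
      if i = x e.1 then (if tb e i = y e.2.1 then 1 else 0) else 0 := by
    intro i hi
    rw [chi_node x (mem_range.1 hi), chi_node y (tbD_lt (h.tab e he) (mem_range.1 hi))]
    split_ifs <;> simp
  rw [sum_congr rfl h6, sum_ite_eq', if_pos (mem_range.2 (hx _ hu)), vioD h he (hx _ hu)]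
  split_ifs <;> norm_num

theorem cLD (h : Xg n d q D l) (g : List ℕ) (u : ℕ) {i : ℕ} (hi : i < q) (f : ℕ → ℕ)
    (hf : f u = i) : (cL l g u i : ℝ) = S (fun e => if e.1 = u then vio f (toF g) e else 0) l := by
  unfold cL
  rw [filter_len]
  refine S_congr fun e he => ?_
  by_cases hu : e.1 = u
  · rw [if_pos hu, vioD h he (by rw [hu, hf]; exact hi)]
    unfold sb toF
    simp only [hu, hf, decide_true, Bool.true_and, Bool.not_eq_true', decide_eq_false_iff_not]
    split_ifs <;> simp_all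
  · simp [hu]

theorem brLD (h : Xg n d q D l) (hq : 0 < q) (g : List ℕ) :
    BestL n q l (toF (brL n q l g)) (toF g) := by
  intro u hu
  obtain ⟨h1, h2⟩ := amin_ok hq (cL l g u)
  have e1 := toF_brL (q := q) (l := l) g hu
  refine ⟨by rw [e1]; exact h1, fun i hi => ?_⟩
  rw [← cLD h g u h1 (toF (brL n q l g)) e1, ← cLD h g u hi (fun _ => i) rfl]
  exact_mod_cast h2 i hi

theorem BestLD (h : Xg n d q D l) {f g f' : ℕ → ℕ} (hf : BestL n q l f g)
    (hf' : ∀ u < n, f' u < q) : V l f g ≤ V l f' g := by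
  unfold V
  rw [S_split (fun e : Edge => e.1) (fun e he => (h.lt e he).1),
    S_split (fun e : Edge => e.1) (fun e he => (h.lt e he).1) (vio f' g)]
  exact sum_le_sum fun u hu => best_term_left hf (mem_range.1 hu) (hf' u (mem_range.1 hu))

theorem nvLD (h : Xg n d q D l) {c : List ℕ × List ℕ} (hf : ∀ u < n, toF c.1 u < q) :
    (nvL l c : ℝ) = V l (toF c.1) (toF c.2) := by
  unfold nvL V
  rw [filter_len]
  refine S_congr fun e he => ?_
  rw [vioD h he (hf _ (h.lt e he).1)]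
  unfold sb toF
  simp only [Bool.not_eq_true', decide_eq_false_iff_not]
  split_ifs <;> simp_all

theorem chi_norm {x : ℕ → ℕ} (hx : ∀ u < n, x u < q) :
    ∑ s ∈ range (n * q), chi q x s ^ 2 = n := by
  rw [sum_congr rfl fun s _ => chi_sq q x s, sum_chi hx fun _ => 1]
  simp

end

end Pool.Agent.K6.H49.LTR
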