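import Pool.Agent.K6.H49.UGS.Hol
import Pool.Agent.K6.H49.UGQ.Bas

/-!
# Tables with small fibers, and the inequality of Hölder type for them
-/

set_option autoImplicit false

open Finset

namespace Pool.Agent.K6.H49.LTR

open Pool.Agent.K6.H49.UGX (Edge)
open Pool.Agent.K6.H49.UGQ
open Pool.Agent.K6.H49.UGR (sym_basis fr expand sq_expand fr_basis fr_basis' card_orth)
open Pool.Agent.K6.H49.UGS (Sp rt exists_sp bessel rt_mul)

/-- A table of a map of `q` labels with fibers of at most `D` elements. -/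
def TabD (q D : ℕ) (t : List ℕ) : Prop := t.length = q ∧ ∀ b, (b ∈ t → b < q) ∧ t.count b ≤ D

section Tables

variable {q D : ℕ} {e : Edge}

theorem tbD_lt (h : TabD q D e.2.2) {i : ℕ} (hi : i < q) : tb e i < q := by
  unfold tb
  rw [List.getD_eq_getElem _ _ (by rw [h.1]; exact hi)]
  exact (h.2 _).1 (List.getElem_mem _)

theorem tbD_get (h : TabD q D e.2.2) {i : ℕ} (hi : i < q) : e.2.2[i]? = some (tb e i) := by
  unfold tb
  have hi' : i < e.2.2.length := by rw [h.1]; exact hi
  rw [List.getD_eq_getElem _ _ hi', List.getElem?_eq_getElem hi']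

theorem card_fib (t : List ℕ) (b : ℕ) :
    ((range t.length).filter fun i => t.getD i 0 = b).card = t.count b := by
  have h1 : t = (List.range t.length).map fun i => t.getD i 0 := by
    refine List.ext_getElem (by simp) fun i h1 h2 => ?_
    rw [List.getElem_map, List.getElem_range]
    exact (List.getD_eq_getElem _ _ h1).symm
  have h2 : ((range t.length).filter fun i => t.getD i 0 = b).card =
      ((List.range t.length).filter fun i => decide (t.getD i 0 = b)).length := rfl
  rw [h2]
  conv_rhs => rw [h1]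
  rw [List.count_eq_countP, List.countP_map, List.countP_eq_length_filter]
  congr 1

theorem fib_le (h : TabD q D e.2.2) (b : ℕ) :
    ((range q).filter fun i => tb e i = b).card ≤ D := by
  have h1 := card_fib e.2.2 b
  rw [h.1] at h1
  unfold tb
  rw [h1]
  exact (h.2 b).2

end Tables

section Fibers

variable {q D : ℕ} {p : ℕ → ℕ}

theorem fib_sum (hp : ∀ a < q, p a < q)
    (hf : ∀ b, ((range q).filter fun a => p a = b).card ≤ D) {F : ℕ → ℝ} (hF : ∀ a, 0 ≤ F a) :
    ∑ a ∈ range q, F (p a) ≤ D * ∑ b ∈ range q, F b := by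
  have h1 : ∑ a ∈ range q, F (p a) =
      ∑ b ∈ range q, ∑ a ∈ (range q).filter (fun a => p a = b), F (p a) :=
    (sum_fiberwise_of_maps_to (fun a ha => mem_range.2 (hp a (mem_range.1 ha))) _).symm
  rw [h1, mul_sum]
  refine sum_le_sum fun b _ => ?_
  have h2 : ∑ a ∈ (range q).filter (fun a => p a = b), F (p a) =
      ∑ a ∈ (range q).filter (fun a => p a = b), F b :=
    sum_congr rfl fun a ha => by rw [(mem_filter.1 ha).2]
  rw [h2, sum_const, nsmul_eq_mul]
  exact mul_le_mul_of_nonneg_right (by exact_mod_cast hf b) (hF b)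

theorem fib_sq (hp : ∀ a < q, p a < q)
    (hf : ∀ b, ((range q).filter fun a => p a = b).card ≤ D) (A : ℕ → ℝ) :
    ∑ b ∈ range q, (∑ a ∈ (range q).filter (fun a => p a = b), A a) ^ 2 ≤
      D * ∑ a ∈ range q, A a ^ 2 := by
  have h1 : ∑ a ∈ range q, A a ^ 2 =
      ∑ b ∈ range q, ∑ a ∈ (range q).filter (fun a => p a = b), A a ^ 2 :=
    (sum_fiberwise_of_maps_to (fun a ha => mem_range.2 (hp a (mem_range.1 ha))) _).symm
  rw [h1, mul_sum]
  refine sum_le_sum fun b _ => ?_
  refine sq_sum_le_card_mul_sum_sq.trans ?_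
  exact mul_le_mul_of_nonneg_right (by exact_mod_cast hf b) (sum_nonneg fun a _ => sq_nonneg _)

theorem fib_inner (hp : ∀ a < q, p a < q) (A B : ℕ → ℝ) :
    ∑ a ∈ range q, A a * B (p a) =
      ∑ b ∈ range q, B b * ∑ a ∈ (range q).filter (fun a => p a = b), A a := by
  have h1 : ∑ a ∈ range q, A a * B (p a) =
      ∑ b ∈ range q, ∑ a ∈ (range q).filter (fun a => p a = b), A a * B (p a) :=
    (sum_fiberwise_of_maps_to (fun a ha => mem_range.2 (hp a (mem_range.1 ha))) _).symm
  rw [h1]
  refine sum_congr rfl fun b _ => ?_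
  rw [mul_sum]
  refine sum_congr rfl fun a ha => ?_
  rw [(mem_filter.1 ha).2, mul_comm]

end Fibers

section

variable {m q D : ℕ} {W W' : ℕ → Fin m → ℝ} {w w' : Fin m → Fin m → ℝ} {s t : Fin m → ℝ}

/-- **The inequality of Hölder type**, for a map with fibers of at most `D` elements. -/
theorem holderD (h : Sp m q W w s) (h' : Sp m q W' w' t) {p : ℕ → ℕ} (hp : ∀ a < q, p a < q)
    (hf : ∀ b, ((range q).filter fun a => p a = b).card ≤ D) {η : ℝ} (hη : 0 < η) :
    ∑ a ∈ range q, ∑ j, W a j * W' (p a) j ≤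
      1 / (2 * η) * ∑ i, ∑ j, rt w s i j * rt w' t i j +
      η / 2 * (D * (√(fr q W) * √(fr q W'))) := by
  set A : Fin m → ℕ → ℝ := fun k a => ∑ j, W a j * w k j with hA
  set B : Fin m → ℕ → ℝ := fun k a => ∑ j, W' a j * w' k j with hB
  set G : Fin m → Fin m → ℝ := fun k k' => ∑ j, w k j * w' k' j with hG
  set P : Fin m → Fin m → ℝ := fun k k' => ∑ a ∈ range q, A k a * B k' (p a) with hP
  have hD0 : (0 : ℝ) ≤ D := by positivity
  -- expansion
  have h1 : ∑ a ∈ range q, ∑ j, W a j * W' (p a) j = ∑ k, ∑ k', G k k' * P k k' := by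
    have e1 : ∀ a, ∑ j, W a j * W' (p a) j = ∑ k, ∑ k', G k k' * (A k a * B k' (p a)) := by
      intro a
      have e2 : ∀ j, W a j = ∑ k, A k a * w k j := by
        intro j
        rw [expand h.comp (fun j => W a j) j]
        refine sum_congr rfl fun k _ => ?_
        simp only [hA]
        congr 1
        exact sum_congr rfl fun i _ => mul_comm _ _
      have e3 : ∀ j, W' (p a) j = ∑ k, B k (p a) * w' k j := by
        intro j
        rw [expand h'.comp (fun j => W' (p a) j) j]
        refine sum_congr rfl fun k _ => ?_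
        simp only [hB]
        congr 1
        exact sum_congr rfl fun i _ => mul_comm _ _
      calc ∑ j, W a j * W' (p a) j =
          ∑ j, (∑ k, A k a * w k j) * (∑ k', B k' (p a) * w' k' j) := by
            refine sum_congr rfl fun j _ => ?_
            rw [← e2, ← e3]
        _ = ∑ j, ∑ k, ∑ k', (w k j * w' k' j) * (A k a * B k' (p a)) := by
            refine sum_congr rfl fun j _ => ?_
            rw [sum_mul_sum]
            exact sum_congr rfl fun k _ => sum_congr rfl fun k' _ => by ring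
        _ = _ := by
            rw [sum_comm]
            refine sum_congr rfl fun k _ => ?_
            rw [sum_comm]
            refine sum_congr rfl fun k' _ => ?_
            rw [← sum_mul]
    simp only [e1]
    rw [sum_comm]
    refine sum_congr rfl fun k _ => ?_
    rw [sum_comm]
    refine sum_congr rfl fun k' _ => ?_
    rw [← mul_sum]
  have zA : ∀ k, s k = 0 → ∀ a ∈ range q, A k a = 0 := by
    intro k hk a ha
    have h2 := h.gram k k
    rw [if_pos rfl, hk] at h2
    have h3 : ∑ a ∈ range q, A k a * A k a = 0 := by rw [h2]; ring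
    rw [sum_eq_zero_iff_of_nonneg fun a _ => mul_self_nonneg _] at h3
    exact mul_self_eq_zero.1 (h3 a ha)
  have zB : ∀ k, t k = 0 → ∀ a ∈ range q, B k a = 0 := by
    intro k hk a ha
    have h2 := h'.gram k k
    rw [if_pos rfl, hk] at h2
    have h3 : ∑ a ∈ range q, B k a * B k a = 0 := by rw [h2]; ring
    rw [sum_eq_zero_iff_of_nonneg fun a _ => mul_self_nonneg _] at h3
    exact mul_self_eq_zero.1 (h3 a ha)
  have h2 : ∀ k k', G k k' * P k k' ≤ 1 / (2 * η) * (s k * t k' * G k k' ^ 2) +
      η / 2 * ((P k k' / s k) * (P k k' / t k')) := by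
    intro k k'
    rcases (h.nn k).eq_or_lt with hs | hs
    · have : P k k' = 0 := sum_eq_zero fun a ha => by rw [zA k hs.symm a ha, zero_mul]
      rw [this, ← hs]
      simp
    · rcases (h'.nn k').eq_or_lt with ht | ht
      · have : P k k' = 0 := sum_eq_zero fun a ha => by
          rw [zB k' ht.symm _ (mem_range.2 (hp a (mem_range.1 ha))), mul_zero]
        rw [this, ← ht]
        simp
      · have e1 : 1 / (2 * η) * (s k * t k' * G k k' ^ 2) +
            η / 2 * ((P k k' / s k) * (P k k' / t k')) - G k k' * P k k' =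
            1 / (2 * η * (s k * t k')) * (s k * t k' * G k k' - η * P k k') ^ 2 := by
          field_simp
          ring
        have e2 : 0 ≤ 1 / (2 * η * (s k * t k')) * (s k * t k' * G k k' - η * P k k') ^ 2 := by
          positivity
        linarith
  -- Bessel
  have b1 : ∑ k, ∑ k', (P k k' / s k) ^ 2 ≤ D * fr q W' := by
    rw [sum_comm, h'.fr_eq, mul_sum]
    refine sum_le_sum fun k' _ => ?_
    have g1 := bessel (q := q) (fun k a => A k a / s k) (fun k => if s k = 0 then 0 else 1)
      (fun k => by split_ifs <;> norm_num) (fun k k1 => by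
        have e1 : ∑ a ∈ range q, A k a / s k * (A k1 a / s k1) =
            (∑ a ∈ range q, A k a * A k1 a) / (s k * s k1) := by
          rw [sum_div]
          exact sum_congr rfl fun a _ => by rw [div_mul_div_comm]
        rw [e1, h.gram]
        by_cases hk : k = k1
        · rw [if_pos hk, if_pos hk, ← hk]
          by_cases hs : s k = 0
          · rw [if_pos hs, hs]; simp
          · rw [if_neg hs]
            field_simp
        · rw [if_neg hk, if_neg hk, zero_div]) (fun a => B k' (p a))
    have e2 : ∑ a ∈ range q, B k' a ^ 2 = t k' ^ 2 := by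
      have := h'.gram k' k'
      rw [if_pos rfl] at this
      rw [← this]
      exact sum_congr rfl fun a _ => sq _
    have e3 := fib_sum hp hf (F := fun a => B k' a ^ 2) fun a => sq_nonneg _
    beta_reduce at e3
    rw [e2] at e3
    refine le_trans (le_of_eq ?_) (g1.trans e3)
    refine sum_congr rfl fun k _ => ?_
    congr 1
    simp only [hP]
    rw [sum_div]
    exact sum_congr rfl fun a _ => by ring
  have b2 : ∑ k, ∑ k', (P k k' / t k') ^ 2 ≤ D * fr q W := by
    rw [h.fr_eq, mul_sum]
    refine sum_le_sum fun k _ => ?_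
    have g1 := bessel (q := q) (fun k a => B k a / t k) (fun k => if t k = 0 then 0 else 1)
      (fun k => by split_ifs <;> norm_num) (fun k k1 => by
        have e1 : ∑ a ∈ range q, B k a / t k * (B k1 a / t k1) =
            (∑ a ∈ range q, B k a * B k1 a) / (t k * t k1) := by
          rw [sum_div]
          exact sum_congr rfl fun a _ => by rw [div_mul_div_comm]
        rw [e1, h'.gram]
        by_cases hk : k = k1
        · rw [if_pos hk, if_pos hk, ← hk]
          by_cases hs : t k = 0
          · rw [if_pos hs, hs]; simp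
          · rw [if_neg hs]
            field_simp
        · rw [if_neg hk, if_neg hk, zero_div])
      (fun b => ∑ a ∈ (range q).filter (fun a => p a = b), A k a)
    have e2 : ∑ a ∈ range q, A k a ^ 2 = s k ^ 2 := by
      have := h.gram k k
      rw [if_pos rfl] at this
      rw [← this]
      exact sum_congr rfl fun a _ => sq _
    have e3 := fib_sq hp hf (A k)
    rw [e2] at e3
    refine le_trans (le_of_eq ?_) (g1.trans e3)
    refine sum_congr rfl fun k' _ => ?_
    congr 1
    simp only [hP]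
    rw [fib_inner hp (A k) (B k'), sum_div]
    exact sum_congr rfl fun a _ => by ring
  have b3 : ∑ k, ∑ k', (P k k' / s k) * (P k k' / t k') ≤ D * (√(fr q W) * √(fr q W')) := by
    have e1 : ∑ k, ∑ k', (P k k' / s k) * (P k k' / t k') =
        ∑ z : Fin m × Fin m, (P z.1 z.2 / s z.1) * (P z.1 z.2 / t z.2) := by
      rw [← univ_product_univ, sum_product]
    rw [e1]
    have e2 := Real.sum_mul_le_sqrt_mul_sqrt (univ : Finset (Fin m × Fin m))
      (fun z => P z.1 z.2 / s z.1) (fun z => P z.1 z.2 / t z.2)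
    refine e2.trans ?_
    have e3 : ∑ z : Fin m × Fin m, (P z.1 z.2 / s z.1) ^ 2 =
        ∑ k, ∑ k', (P k k' / s k) ^ 2 := by
      rw [← univ_product_univ, sum_product]
    have e4 : ∑ z : Fin m × Fin m, (P z.1 z.2 / t z.2) ^ 2 =
        ∑ k, ∑ k', (P k k' / t k') ^ 2 := by
      rw [← univ_product_univ, sum_product]
    rw [e3, e4, mul_comm]
    have e5 := mul_le_mul (Real.sqrt_le_sqrt b2) (Real.sqrt_le_sqrt b1) (Real.sqrt_nonneg _)
      (Real.sqrt_nonneg _)
    refine e5.trans (le_of_eq ?_)
    rw [Real.sqrt_mul hD0, Real.sqrt_mul hD0]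
    have e6 : √(D : ℝ) * √(D : ℝ) = D := Real.mul_self_sqrt hD0
    calc √(D : ℝ) * √(fr q W) * (√(D : ℝ) * √(fr q W')) =
        (√(D : ℝ) * √(D : ℝ)) * (√(fr q W) * √(fr q W')) := by ring
      _ = _ := by rw [e6]
  rw [h1, rt_mul]
  refine (sum_le_sum fun k _ => sum_le_sum fun k' _ => h2 k k').trans ?_
  have e5 : ∑ k, ∑ k', (1 / (2 * η) * (s k * t k' * G k k' ^ 2) +
      η / 2 * ((P k k' / s k) * (P k k' / t k'))) =
      1 / (2 * η) * (∑ k, ∑ k', s k * t k' * G k k' ^ 2) +
      η / 2 * ∑ k, ∑ k', (P k k' / s k) * (P k k' / t k') := by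
    simp only [sum_add_distrib, mul_sum]
  rw [e5]
  have e6 := mul_le_mul_of_nonneg_left b3 (by positivity : 0 ≤ η / 2)
  linarith

end

/-- **The norm of a weighted sum of square roots.** -/
theorem sum_normW {m q : ℕ} (U : Finset ℕ) (W : ℕ → ℕ → Fin m → ℝ)
    (w : ℕ → Fin m → Fin m → ℝ) (s : ℕ → Fin m → ℝ) (h : ∀ u ∈ U, Sp m q (W u) (w u) (s u))
    (hW : ∀ x : Fin m → ℝ, ∑ u ∈ U, ∑ a ∈ range q, (∑ j, W u a j * x j) ^ 2 ≤ ∑ j, x j ^ 2)
    (c : ℕ → ℝ) (hc : ∑ u ∈ U, c u ^ 2 ≤ 1) :
    ∑ i, ∑ j, (∑ u ∈ U, c u * rt (w u) (s u) i j) ^ 2 ≤ q := by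
  set Y : Fin m → Fin m → ℝ := fun i j => ∑ u ∈ U, c u * rt (w u) (s u) i j with hY
  have hsym : ∀ i j, Y i j = Y j i := by
    intro i j
    simp only [hY]
    refine sum_congr rfl fun u _ => ?_
    unfold rt
    congr 1
    exact sum_congr rfl fun k _ => by ring
  have h1 : ∑ u ∈ U, c u * ∑ k, s u k * ∑ i, ∑ j, w u k i * w u k j * Y i j =
      ∑ i, ∑ j, Y i j ^ 2 := by
    have e1 : ∀ i j, Y i j ^ 2 = ∑ u ∈ U, c u * ∑ k, s u k * (w u k i * w u k j * Y i j) := by
      intro i j
      rw [sq]
      nth_rewrite 1 [hY]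
      simp only
      rw [sum_mul]
      refine sum_congr rfl fun u _ => ?_
      unfold rt
      rw [mul_assoc, sum_mul]
      congr 1
      exact sum_congr rfl fun k _ => by ring
    simp only [e1]
    symm
    calc ∑ i, ∑ j, ∑ u ∈ U, c u * ∑ k, s u k * (w u k i * w u k j * Y i j) =
        ∑ i, ∑ u ∈ U, ∑ j, c u * ∑ k, s u k * (w u k i * w u k j * Y i j) :=
          sum_congr rfl fun i _ => sum_comm
      _ = ∑ u ∈ U, ∑ i, ∑ j, c u * ∑ k, s u k * (w u k i * w u k j * Y i j) := sum_comm
      _ = _ := by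
          refine sum_congr rfl fun u _ => ?_
          simp only [← mul_sum]
          congr 1
          calc ∑ i, ∑ j, ∑ k, s u k * (w u k i * w u k j * Y i j) =
              ∑ i, ∑ k, ∑ j, s u k * (w u k i * w u k j * Y i j) :=
                sum_congr rfl fun i _ => sum_comm
            _ = ∑ k, ∑ i, ∑ j, s u k * (w u k i * w u k j * Y i j) := sum_comm
            _ = _ := by simp only [mul_sum]
  have h2 : ∀ u ∈ U, c u * ∑ k, s u k * ∑ i, ∑ j, w u k i * w u k j * Y i j ≤
      q / 2 * c u ^ 2 + 1 / 2 * ∑ i, ∑ a ∈ range q, (∑ j, W u a j * Y i j) ^ 2 := by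
    intro u hu
    have hS := h u hu
    have e1 : ∀ k, c u * (s u k * ∑ i, ∑ j, w u k i * w u k j * Y i j) ≤
        (if s u k ≠ 0 then 1 / 2 * c u ^ 2 else 0) +
          1 / 2 * (s u k ^ 2 * ∑ i, (∑ j, w u k j * Y i j) ^ 2) := by
      intro k
      have e2 : ∑ i, ∑ j, w u k i * w u k j * Y i j = ∑ i, w u k i * ∑ j, w u k j * Y i j := by
        refine sum_congr rfl fun i _ => ?_
        rw [mul_sum]
        exact sum_congr rfl fun j _ => by ring
      have e3 : (∑ i, w u k i * ∑ j, w u k j * Y i j) ^ 2 ≤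
          ∑ i, (∑ j, w u k j * Y i j) ^ 2 := by
        have := sum_mul_sq_le_sq_mul_sq univ (w u k) fun i => ∑ j, w u k j * Y i j
        have e4 : ∑ i, w u k i ^ 2 = 1 := by
          have := hS.orth k k
          rw [if_pos rfl] at this
          rw [← this]
          exact sum_congr rfl fun i _ => sq _
        rw [e4, one_mul] at this
        exact this
      rw [e2]
      generalize (∑ i, w u k i * ∑ j, w u k j * Y i j) = X at e3
      generalize (∑ i, (∑ j, w u k j * Y i j) ^ 2) = Z at e3
      by_cases hs : s u k = 0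
      · rw [hs]; simp
      · rw [if_pos hs]
        have e5 : s u k ^ 2 * X ^ 2 ≤ s u k ^ 2 * Z := mul_le_mul_of_nonneg_left e3 (sq_nonneg _)
        nlinarith [sq_nonneg (s u k * X - c u)]
    rw [mul_sum]
    refine (sum_le_sum fun k _ => e1 k).trans ?_
    rw [sum_add_distrib, ← sum_filter, sum_const, nsmul_eq_mul, ← mul_sum]
    have e6 : ((univ.filter fun k => s u k ≠ 0).card : ℝ) ≤ q := by exact_mod_cast hS.card
    have e7 : ∑ k, s u k ^ 2 * ∑ i, (∑ j, w u k j * Y i j) ^ 2 =
        ∑ i, ∑ a ∈ range q, (∑ j, W u a j * Y i j) ^ 2 := by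
      simp only [mul_sum]
      rw [sum_comm]
      refine sum_congr rfl fun i _ => ?_
      rw [hS.nrm]
    rw [e7]
    have e8 := mul_le_mul_of_nonneg_right e6 (by positivity : 0 ≤ 1 / 2 * c u ^ 2)
    linarith
  have h3 : ∑ u ∈ U, ∑ i, ∑ a ∈ range q, (∑ j, W u a j * Y i j) ^ 2 ≤ ∑ i, ∑ j, Y i j ^ 2 := by
    rw [sum_comm]
    exact sum_le_sum fun i _ => hW (Y i)
  have h4 := sum_le_sum h2
  rw [h1, sum_add_distrib, ← mul_sum, ← mul_sum] at h4
  have h5 : (q : ℝ) / 2 * ∑ u ∈ U, c u ^ 2 ≤ q / 2 * 1 :=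
    mul_le_mul_of_nonneg_left hc (by positivity)
  linarith

end Pool.Agent.K6.H49.LTR
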