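import Pool.Agent.K6.H49.LTR.Hol
import Pool.Agent.K6.H49.UGS.Cnt

/-!
# Regular lists of constraints of low threshold rank
-/

set_option autoImplicit false

open Finset

namespace Pool.Agent.K6.H49.LTR

open Pool.Agent.K6.H49.UGX (Edge)
open Pool.Agent.K6.H49.UGQ
open Pool.Agent.K6.H49.UGR (fr Wm sum_fr)
open Pool.Agent.K6.H49.UGS (Sp rt exists_sp gram_le)

/-- A `d`-regular list of constraints on `n + n` vertices, given by tables of maps of `q` labels
with fibers of at most `D` elements. -/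
structure Xg (n d q D : ℕ) (l : List Edge) : Prop where
  npos : 0 < n
  dpos : 0 < d
  lt : ∀ e ∈ l, e.1 < n ∧ e.2.1 < n
  tab : ∀ e ∈ l, TabD q D e.2.2
  left : ∀ u < n, S (fun e => if e.1 = u then (1 : ℝ) else 0) l = d
  right : ∀ v < n, S (fun e => if e.2.1 = v then (1 : ℝ) else 0) l = d

/-- The biadjacency matrix of the constraint graph has at most `k` singular values above `σ d`. -/
def Lr (n d k : ℕ) (σ : ℝ) (l : List Edge) : Prop :=
  ∃ a : ℕ → ℕ → ℝ, ∀ f g : ℕ → ℝ, (∀ i < k, ∑ u ∈ range n, a i u * f u = 0) →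
    |S (fun e => f e.1 * g e.2.1) l| ≤
      σ * d * (√(∑ u ∈ range n, f u ^ 2) * √(∑ v ∈ range n, g v ^ 2))

namespace Xg

variable {n d q D : ℕ} {l : List Edge}

theorem sum_left (h : Xg n d q D l) (φ : ℕ → ℝ) :
    S (fun e => φ e.1) l = d * ∑ u ∈ range n, φ u := by
  rw [S_split (fun e : Edge => e.1) (fun e he => (h.lt e he).1), mul_sum]
  refine sum_congr rfl fun u hu => ?_
  rw [← h.left u (mem_range.1 hu), mul_comm, ← S_mul]
  refine S_congr fun e _ => ?_
  split_ifs with h1
  · rw [h1, mul_one]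
  · rw [mul_zero]

theorem sum_right (h : Xg n d q D l) (φ : ℕ → ℝ) :
    S (fun e => φ e.2.1) l = d * ∑ u ∈ range n, φ u := by
  rw [S_split (fun e : Edge => e.2.1) (fun e he => (h.lt e he).2), mul_sum]
  refine sum_congr rfl fun u hu => ?_
  rw [← h.right u (mem_range.1 hu), mul_comm, ← S_mul]
  refine S_congr fun e _ => ?_
  split_ifs with h1
  · rw [h1, mul_one]
  · rw [mul_zero]

theorem count (h : Xg n d q D l) : S (fun _ => (1 : ℝ)) l = d * n := by
  have := h.sum_left fun _ => 1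
  rw [this]
  simp

/-- The norm of the constraint graph is at most `d`. -/
theorem bil_d (h : Xg n d q D l) (f g : ℕ → ℝ) :
    S (fun e => f e.1 * g e.2.1) l ≤
      d * (√(∑ u ∈ range n, f u ^ 2) * √(∑ v ∈ range n, g v ^ 2)) := by
  have h1 := S_cs (fun e : Edge => f e.1) (fun e => g e.2.1) l
  rw [h.sum_left fun u => f u ^ 2, h.sum_right fun u => g u ^ 2] at h1
  have hf : 0 ≤ ∑ u ∈ range n, f u ^ 2 := sum_nonneg fun u _ => sq_nonneg _
  have hg : 0 ≤ ∑ u ∈ range n, g u ^ 2 := sum_nonneg fun u _ => sq_nonneg _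
  refine le_of_sq_le_sq ?_ (by positivity) |> fun h => h
  rw [mul_pow, mul_pow, Real.sq_sqrt hf, Real.sq_sqrt hg]
  linarith

end Xg

/-- Orthonormalisation. -/
theorem ortho (n k : ℕ) (a : ℕ → ℕ → ℝ) : ∃ k' ≤ k, ∃ b : ℕ → ℕ → ℝ,
    (∀ i < k', ∀ j < k', ∑ u ∈ range n, b i u * b j u = if i = j then 1 else 0) ∧
    ∀ f : ℕ → ℝ, (∀ i < k', ∑ u ∈ range n, b i u * f u = 0) →
      ∀ i < k, ∑ u ∈ range n, a i u * f u = 0 := by
  induction k with
  | zero => exact ⟨0, le_rfl, a, fun i hi => absurd hi (by omega), fun f _ i hi =>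
      absurd hi (by omega)⟩
  | succ k ih =>
    obtain ⟨k', hk, b, ho, hb⟩ := ih
    set c : ℕ → ℝ := fun i => ∑ u ∈ range n, b i u * a k u with hc
    set r : ℕ → ℝ := fun u => a k u - ∑ i ∈ range k', c i * b i u with hr
    have hrb : ∀ j < k', ∑ u ∈ range n, b j u * r u = 0 := by
      intro j hj
      have e1 : ∀ u, b j u * r u = b j u * a k u - ∑ i ∈ range k', c i * (b i u * b j u) := by
        intro u
        simp only [hr]
        rw [mul_sub, mul_sum]
        congr 1
        exact sum_congr rfl fun i _ => by ring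
      have e2 : ∑ u ∈ range n, ∑ i ∈ range k', c i * (b i u * b j u) = c j := by
        rw [sum_comm]
        simp only [← mul_sum]
        rw [sum_eq_single j]
        · rw [ho j hj j hj, if_pos rfl, mul_one]
        · intro i hi hij
          rw [ho i (mem_range.1 hi) j hj, if_neg hij, mul_zero]
        · intro hh
          exact absurd (mem_range.2 hj) hh
      simp only [e1]
      rw [sum_sub_distrib, e2]
      simp only [hc, sub_self]
    have har : ∀ f : ℕ → ℝ, (∀ i < k', ∑ u ∈ range n, b i u * f u = 0) →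
        ∑ u ∈ range n, a k u * f u = ∑ u ∈ range n, r u * f u := by
      intro f hf
      have e1 : ∀ u, r u * f u = a k u * f u - ∑ i ∈ range k', c i * (b i u * f u) := by
        intro u
        simp only [hr]
        rw [sub_mul, sum_mul]
        congr 1
        exact sum_congr rfl fun i _ => by ring
      have e2 : ∑ u ∈ range n, ∑ i ∈ range k', c i * (b i u * f u) = 0 := by
        rw [sum_comm]
        simp only [← mul_sum]
        refine sum_eq_zero fun i hi => ?_
        rw [hf i (mem_range.1 hi), mul_zero]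
      simp only [e1]
      rw [sum_sub_distrib, e2, sub_zero]
    have hN0 : 0 ≤ ∑ u ∈ range n, r u ^ 2 := sum_nonneg fun u _ => sq_nonneg _
    rcases hN0.eq_or_lt with h0 | h0
    · refine ⟨k', by omega, b, ho, fun f hf i hi => ?_⟩
      rcases Nat.lt_succ_iff_lt_or_eq.1 hi with hi | rfl
      · exact hb f hf i hi
      · rw [har f hf]
        refine sum_eq_zero fun u hu => ?_
        have h1 := (sum_eq_zero_iff_of_nonneg fun u _ => sq_nonneg _).1 h0.symm u hu
        rw [pow_eq_zero_iff (by norm_num)] at h1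
        rw [h1, zero_mul]
    · have hs : 0 < √(∑ u ∈ range n, r u ^ 2) := Real.sqrt_pos.2 h0
      have hs2 : √(∑ u ∈ range n, r u ^ 2) ^ 2 = ∑ u ∈ range n, r u ^ 2 := Real.sq_sqrt hN0
      set ρ := √(∑ u ∈ range n, r u ^ 2) with hρ
      refine ⟨k' + 1, by omega, fun i => if i = k' then fun u => r u / ρ else b i, ?_, ?_⟩
      · intro i hi j hj
        beta_reduce
        have key : ∀ i < k', ∑ u ∈ range n, b i u * (r u / ρ) = 0 := by
          intro i hi
          have e1 : ∀ u, b i u * (r u / ρ) = b i u * r u / ρ := fun u => by ring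
          simp only [e1]
          rw [← sum_div, hrb i hi, zero_div]
        by_cases hi' : i = k' <;> by_cases hj' : j = k'
        · rw [if_pos hi', if_pos hj', if_pos (by omega)]
          have e1 : ∀ u, r u / ρ * (r u / ρ) = r u ^ 2 / ρ ^ 2 := fun u => by ring
          simp only [e1]
          rw [← sum_div, ← hs2, div_self (by positivity)]
        · rw [if_pos hi', if_neg hj', if_neg (by omega)]
          rw [← key j (by omega)]
          exact sum_congr rfl fun u _ => mul_comm _ _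
        · rw [if_neg hi', if_pos hj', if_neg (by omega)]
          exact key i (by omega)
        · rw [if_neg hi', if_neg hj']
          exact ho i (by omega) j (by omega)
      · intro f hf i hi
        have hf' : ∀ i < k', ∑ u ∈ range n, b i u * f u = 0 := by
          intro i hi
          have := hf i (by omega)
          beta_reduce at this
          rwa [if_neg (by omega)] at this
        rcases Nat.lt_succ_iff_lt_or_eq.1 hi with hi | rfl
        · exact hb f hf' i hi
        · rw [har f hf']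
          have h1 := hf k' (by omega)
          beta_reduce at h1
          rw [if_pos rfl] at h1
          have e1 : ∀ u, r u / ρ * f u = r u * f u / ρ := fun u => by ring
          simp only [e1] at h1
          rw [← sum_div, div_eq_zero_iff] at h1
          rcases h1 with h1 | h1
          · exact h1
          · exact absurd h1 hs.ne'

/-- The bilinear form of a graph of low threshold rank. -/
theorem low_bil {n d q D k : ℕ} {σ : ℝ} {l : List Edge} (h : Xg n d q D l) (hσ : 0 ≤ σ)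
    (hk : Lr n d k σ l) : ∃ k' ≤ k, ∃ b : ℕ → ℕ → ℝ, (∀ i < k', ∑ u ∈ range n, b i u ^ 2 = 1) ∧
    ∀ (f g : ℕ → ℝ) (θ : ℝ), 0 < θ → S (fun e => f e.1 * g e.2.1) l ≤
      d * (1 / (2 * θ) * (∑ i ∈ range k', (∑ u ∈ range n, b i u * f u) ^ 2) +
        θ / 2 * ∑ u ∈ range n, g u ^ 2) +
      σ * d * (((∑ u ∈ range n, f u ^ 2) + ∑ u ∈ range n, g u ^ 2) / 2) := by
  obtain ⟨a, ha⟩ := hk
  obtain ⟨k', hk', b, ho, hb⟩ := ortho n k a
  refine ⟨k', hk', b, fun i hi => ?_, fun f g θ hθ => ?_⟩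
  · have := ho i hi i hi
    rw [if_pos rfl] at this
    rw [← this]
    exact sum_congr rfl fun u _ => sq _
  set c : ℕ → ℝ := fun i => ∑ u ∈ range n, b i u * f u with hc
  set f1 : ℕ → ℝ := fun u => ∑ i ∈ range k', c i * b i u with hf1
  set f2 : ℕ → ℝ := fun u => f u - f1 u with hf2
  have hd : (0 : ℝ) ≤ d := by positivity
  have o1 : ∀ j < k', ∑ u ∈ range n, b j u * f1 u = c j := by
    intro j hj
    have e1 : ∀ u, b j u * f1 u = ∑ i ∈ range k', c i * (b i u * b j u) := by
      intro u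
      simp only [hf1]
      rw [mul_sum]
      exact sum_congr rfl fun i _ => by ring
    simp only [e1]
    rw [sum_comm]
    simp only [← mul_sum]
    rw [sum_eq_single j]
    · rw [ho j hj j hj, if_pos rfl, mul_one]
    · intro i hi hij
      rw [ho i (mem_range.1 hi) j hj, if_neg hij, mul_zero]
    · intro hh
      exact absurd (mem_range.2 hj) hh
  have o2 : ∀ j < k', ∑ u ∈ range n, b j u * f2 u = 0 := by
    intro j hj
    simp only [hf2, mul_sub]
    rw [sum_sub_distrib, o1 j hj]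
    simp only [hc, sub_self]
  have n1 : ∑ u ∈ range n, f1 u ^ 2 = ∑ i ∈ range k', c i ^ 2 := by
    have e1 : ∀ u, f1 u ^ 2 = ∑ i ∈ range k', c i * (b i u * f1 u) := by
      intro u
      rw [sq]
      nth_rewrite 1 [hf1]
      beta_reduce
      rw [sum_mul]
      exact sum_congr rfl fun i _ => by ring
    simp only [e1]
    rw [sum_comm]
    simp only [← mul_sum]
    refine sum_congr rfl fun i hi => ?_
    rw [o1 i (mem_range.1 hi), sq]
  have n2 : ∑ u ∈ range n, f2 u ^ 2 ≤ ∑ u ∈ range n, f u ^ 2 := by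
    have e1 : ∀ u, f u ^ 2 = f2 u ^ 2 + f1 u ^ 2 + 2 * (f1 u * f2 u) := by
      intro u
      simp only [hf2]
      ring
    have e2 : ∑ u ∈ range n, f1 u * f2 u = 0 := by
      have e3 : ∀ u, f1 u * f2 u = ∑ i ∈ range k', c i * (b i u * f2 u) := by
        intro u
        nth_rewrite 1 [hf1]
        beta_reduce
        rw [sum_mul]
        exact sum_congr rfl fun i _ => by ring
      simp only [e3]
      rw [sum_comm]
      simp only [← mul_sum]
      refine sum_eq_zero fun i hi => ?_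
      rw [o2 i (mem_range.1 hi), mul_zero]
    simp only [e1]
    rw [sum_add_distrib, sum_add_distrib, ← mul_sum, e2]
    have : 0 ≤ ∑ u ∈ range n, f1 u ^ 2 := sum_nonneg fun u _ => sq_nonneg _
    linarith
  have hsum : S (fun e => f e.1 * g e.2.1) l = S (fun e => f1 e.1 * g e.2.1) l +
      S (fun e => f2 e.1 * g e.2.1) l := by
    rw [← S_add]
    refine S_congr fun e _ => ?_
    simp only [hf2]
    ring
  have b1 := h.bil_d f1 g
  have b2 := (le_abs_self _).trans (ha f2 g (hb f2 o2))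
  have p1 : 0 ≤ ∑ u ∈ range n, f1 u ^ 2 := sum_nonneg fun u _ => sq_nonneg _
  have p2 : 0 ≤ ∑ u ∈ range n, f2 u ^ 2 := sum_nonneg fun u _ => sq_nonneg _
  have p3 : 0 ≤ ∑ u ∈ range n, g u ^ 2 := sum_nonneg fun u _ => sq_nonneg _
  have s1 := Real.sq_sqrt p1
  have s2 := Real.sq_sqrt p2
  have s3 := Real.sq_sqrt p3
  have t1 := Real.sqrt_nonneg (∑ u ∈ range n, f1 u ^ 2)
  have t3 := Real.sqrt_nonneg (∑ u ∈ range n, g u ^ 2)
  have c1 : √(∑ u ∈ range n, f1 u ^ 2) * √(∑ u ∈ range n, g u ^ 2) ≤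
      1 / (2 * θ) * (∑ i ∈ range k', c i ^ 2) + θ / 2 * ∑ u ∈ range n, g u ^ 2 := by
    rw [← n1]
    have key : ∀ x y : ℝ, x * y ≤ 1 / (2 * θ) * x ^ 2 + θ / 2 * y ^ 2 := by
      intro x y
      have e1 : 1 / (2 * θ) * x ^ 2 + θ / 2 * y ^ 2 - x * y = 1 / (2 * θ) * (x - θ * y) ^ 2 := by
        field_simp
        ring
      have e2 : 0 ≤ 1 / (2 * θ) * (x - θ * y) ^ 2 := by positivity
      linarith
    have e3 := key (√(∑ u ∈ range n, f1 u ^ 2)) (√(∑ u ∈ range n, g u ^ 2))
    rw [s1, s3] at e3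
    exact e3
  have c2 : √(∑ u ∈ range n, f2 u ^ 2) * √(∑ u ∈ range n, g u ^ 2) ≤
      ((∑ u ∈ range n, f u ^ 2) + ∑ u ∈ range n, g u ^ 2) / 2 := by
    nlinarith [sq_nonneg (√(∑ u ∈ range n, f2 u ^ 2) - √(∑ u ∈ range n, g u ^ 2))]
  have m1 := mul_le_mul_of_nonneg_left c1 hd
  have m2 := mul_le_mul_of_nonneg_left c2 (by positivity : 0 ≤ σ * d)
  rw [hsum]
  linarith

section

variable {n d q D k : ℕ} {σ : ℝ} {l : List Edge}

/-- **The number of the singular values above `δ d` of the label-extended graph.** -/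
theorem count_low (h : Xg n d q D l) (hσ : 0 ≤ σ) (hk : Lr n d k σ l) (hD : 0 < D) {m : ℕ}
    (ψ η : Fin m → ℕ → ℝ)
    (o1 : ∀ j k, ∑ r ∈ range (n * q), ψ j r * ψ k r = if j = k then 1 else 0)
    (o2 : ∀ j k, ∑ r ∈ range (n * q), η j r * η k r = if j = k then 1 else 0) {δ : ℝ}
    (hδ : 0 < δ) (hc : 8 * D * σ ≤ δ ^ 2) (hb : ∀ j, δ * d ≤ Bf q l (ψ j) (η j)) :
    m * δ ^ 4 ≤ 4 * D ^ 2 * (k * q) := by
  classical
  have hn : (0 : ℝ) < n := by exact_mod_cast h.npos
  have hd : (0 : ℝ) < d := by exact_mod_cast h.dpos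
  have hD' : (0 : ℝ) < D := by exact_mod_cast hD
  have n1 : ∀ j, nrm n q (ψ j) = 1 := by
    intro j
    have := o1 j j
    rw [if_pos rfl] at this
    rw [nrm_eq, ← this]
    exact sum_congr rfl fun r _ => sq _
  have n2 : ∀ j, nrm n q (η j) = 1 := by
    intro j
    have := o2 j j
    rw [if_pos rfl] at this
    rw [nrm_eq, ← this]
    exact sum_congr rfl fun r _ => sq _
  choose w s hw using fun u => exists_sp (q := q) (Wm q ψ u)
  choose w' t hw' using fun v => exists_sp (q := q) (Wm q η v)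
  set κ : ℝ := δ / (2 * D) with hκ
  have hκ0 : 0 < κ := by positivity
  set f : Fin m → Fin m → ℕ → ℝ := fun i j u => rt (w u) (s u) i j with hf
  set g : Fin m → Fin m → ℕ → ℝ := fun i j v => rt (w' v) (t v) i j with hg
  have frn : ∀ (W : ℕ → Fin m → ℝ), 0 ≤ fr q W := fun W =>
    sum_nonneg fun a _ => sum_nonneg fun j _ => sq_nonneg _
  -- over the edges
  have hup : m * (δ * d) ≤ 1 / (2 * κ) * S (fun e => ∑ i, ∑ j, f i j e.1 * g i j e.2.1) l +
      κ / 2 * (D * S (fun e => √(fr q (Wm q ψ e.1)) * √(fr q (Wm q η e.2.1))) l) := by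
    have h1 : m * (δ * d) ≤ ∑ j, Bf q l (ψ j) (η j) := by
      refine le_trans (le_of_eq ?_) (sum_le_sum fun j _ => hb j)
      rw [sum_const, card_univ, Fintype.card_fin, nsmul_eq_mul]
    refine h1.trans ?_
    rw [← S_mul, ← S_mul, ← S_mul, ← S_add]
    unfold Bf
    rw [← S_sum]
    refine S_le fun e he => ?_
    have h2 := holderD (hw e.1) (hw' e.2.1) (p := tb e) (fun a ha => tbD_lt (h.tab e he) ha)
      (fib_le (h.tab e he)) hκ0
    refine le_trans (le_of_eq ?_) h2
    unfold Wm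
    exact sum_comm
  -- the first sum
  obtain ⟨k', hk', b, hb1, hbil⟩ := low_bil h hσ hk
  set θ : ℝ := δ ^ 2 / (4 * D) with hθ
  have hθ0 : 0 < θ := by positivity
  have Yf : ∀ z < k', ∑ i, ∑ j, (∑ u ∈ range n, b z u * f i j u) ^ 2 ≤ q := fun z hz =>
    sum_normW (range n) (fun u => Wm q ψ u) w s (fun u _ => hw u)
      (fun x => gram_le ψ o1 x (range n) (Finset.Subset.refl _)) (b z) (hb1 z hz).le
  have qf : ∑ i, ∑ j, ∑ u ∈ range n, f i j u ^ 2 = m := by
    calc _ = ∑ u ∈ range n, ∑ i, ∑ j, f i j u ^ 2 := by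
          rw [sum_comm (s := range n)]
          exact sum_congr rfl fun i _ => sum_comm
      _ = ∑ u ∈ range n, fr q (Wm q ψ u) := sum_congr rfl fun u _ => (hw u).rt_sq
      _ = m := by
          rw [sum_fr, sum_congr rfl fun j _ => n1 j]
          simp
  have qg : ∑ i, ∑ j, ∑ u ∈ range n, g i j u ^ 2 = m := by
    calc _ = ∑ u ∈ range n, ∑ i, ∑ j, g i j u ^ 2 := by
          rw [sum_comm (s := range n)]
          exact sum_congr rfl fun i _ => sum_comm
      _ = ∑ u ∈ range n, fr q (Wm q η u) := sum_congr rfl fun u _ => (hw' u).rt_sq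
      _ = m := by
          rw [sum_fr, sum_congr rfl fun j _ => n2 j]
          simp
  have h1 : S (fun e => ∑ i, ∑ j, f i j e.1 * g i j e.2.1) l ≤
      d * (1 / (2 * θ) * (k * q) + θ / 2 * m) + σ * d * m := by
    rw [S_sum]
    have h2 : ∑ i, S (fun e => ∑ j, f i j e.1 * g i j e.2.1) l ≤
        ∑ i, ∑ j, (d * (1 / (2 * θ) * (∑ z ∈ range k', (∑ u ∈ range n, b z u * f i j u) ^ 2) +
          θ / 2 * ∑ u ∈ range n, g i j u ^ 2) +
          σ * d * (((∑ u ∈ range n, f i j u ^ 2) + ∑ u ∈ range n, g i j u ^ 2) / 2)) := by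
      refine sum_le_sum fun i _ => ?_
      rw [S_sum]
      exact sum_le_sum fun j _ => hbil (f i j) (g i j) θ hθ0
    refine h2.trans ?_
    have e2 : ∑ i, ∑ j, (d * (1 / (2 * θ) *
          (∑ z ∈ range k', (∑ u ∈ range n, b z u * f i j u) ^ 2) +
          θ / 2 * ∑ u ∈ range n, g i j u ^ 2) +
          σ * d * (((∑ u ∈ range n, f i j u ^ 2) + ∑ u ∈ range n, g i j u ^ 2) / 2)) =
        d * (1 / (2 * θ) * (∑ i, ∑ j, ∑ z ∈ range k', (∑ u ∈ range n, b z u * f i j u) ^ 2) +
          θ / 2 * ∑ i, ∑ j, ∑ u ∈ range n, g i j u ^ 2) +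
        σ * d * ((∑ i, ∑ j, ∑ u ∈ range n, f i j u ^ 2 +
          ∑ i, ∑ j, ∑ u ∈ range n, g i j u ^ 2) / 2) := by
      simp only [sum_add_distrib, ← mul_sum, ← sum_div]
    rw [e2, qf, qg]
    have e3 : ∑ i, ∑ j, ∑ z ∈ range k', (∑ u ∈ range n, b z u * f i j u) ^ 2 ≤ k * q := by
      have e4 : ∑ i, ∑ j, ∑ z ∈ range k', (∑ u ∈ range n, b z u * f i j u) ^ 2 =
          ∑ z ∈ range k', ∑ i, ∑ j, (∑ u ∈ range n, b z u * f i j u) ^ 2 := by
        rw [sum_comm (s := range k')]
        exact sum_congr rfl fun i _ => sum_comm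
      rw [e4]
      refine (sum_le_sum fun z hz => Yf z (mem_range.1 hz)).trans ?_
      rw [sum_const, card_range, nsmul_eq_mul]
      exact mul_le_mul_of_nonneg_right (by exact_mod_cast hk') (by positivity)
    have e5 := mul_le_mul_of_nonneg_left e3 (by positivity : 0 ≤ 1 / (2 * θ))
    have e6 := mul_le_mul_of_nonneg_left e5 hd.le
    linarith
  -- the second sum
  have h7 : S (fun e => √(fr q (Wm q ψ e.1)) * √(fr q (Wm q η e.2.1))) l ≤ d * m := by
    refine (h.bil_d (fun u => √(fr q (Wm q ψ u))) fun v => √(fr q (Wm q η v))).trans ?_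
    have e1 : ∑ u ∈ range n, √(fr q (Wm q ψ u)) ^ 2 = m := by
      rw [sum_congr rfl fun u _ => Real.sq_sqrt (frn _), sum_fr, sum_congr rfl fun j _ => n1 j]
      simp
    have e2 : ∑ u ∈ range n, √(fr q (Wm q η u)) ^ 2 = m := by
      rw [sum_congr rfl fun u _ => Real.sq_sqrt (frn _), sum_fr, sum_congr rfl fun j _ => n2 j]
      simp
    rw [e1, e2, Real.mul_self_sqrt (by positivity)]
  -- together
  have t1 := mul_le_mul_of_nonneg_left h1 (by positivity : 0 ≤ 1 / (2 * κ))
  have t2 := mul_le_mul_of_nonneg_left (mul_le_mul_of_nonneg_left h7 hD'.le)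
    (by positivity : 0 ≤ κ / 2)
  have t3 : κ / 2 * (D * (d * m)) = δ / 4 * (d * m) := by
    rw [hκ]
    field_simp
    ring
  have t4 : 1 / (2 * κ) * (d * (1 / (2 * θ) * (k * q) + θ / 2 * m) + σ * d * m) =
      2 * D ^ 2 * (d * (k * q)) / δ ^ 3 + δ / 8 * (d * m) + D * σ / δ * (d * m) := by
    rw [hκ, hθ]
    field_simp
    ring
  rw [t3] at t2
  rw [t4] at t1
  have t5 : D * σ / δ ≤ δ / 8 := by
    rw [div_le_iff₀ hδ]
    nlinarith
  have t6 : D * σ / δ * (d * m) ≤ δ / 8 * (d * m) :=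
    mul_le_mul_of_nonneg_right t5 (by positivity)
  have t7 : δ / 2 * (d * m) ≤ 2 * D ^ 2 * (d * (k * q)) / δ ^ 3 := by linarith
  rw [le_div_iff₀ (by positivity)] at t7
  have t8 : d * (m * δ ^ 4) ≤ d * (4 * D ^ 2 * (k * q)) := by nlinarith
  exact le_of_mul_le_mul_left t8 hd

end

end Pool.Agent.K6.H49.LTR
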