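import Pool.Agent.K6.H49.LTR.Gen

/-!
# Rounding an approximation of the top part of the indicator of a labeling
-/

set_option autoImplicit false

open Finset

namespace Pool.Agent.K6.H49.LTR

open Pool.Agent.K6.H49.UGX (Edge)
open Pool.Agent.K6.H49.UGQ
open Pool.Agent.K6.H49.UGS (At_norm)

/-- The number of the vertices with different labels. -/
def nd (n : ℕ) (y y' : ℕ → ℕ) : ℝ := ∑ v ∈ range n, if y v = y' v then 0 else 1

theorem nd_nonneg (n : ℕ) (y y' : ℕ → ℕ) : 0 ≤ nd n y y' :=
  sum_nonneg fun v _ => by split_ifs <;> norm_num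

theorem nd_le (n : ℕ) (y y' : ℕ → ℕ) : nd n y y' ≤ n := by
  unfold nd
  refine (sum_le_sum (g := fun _ => (1 : ℝ)) fun v _ => by split_ifs <;> norm_num).trans ?_
  simp

theorem At_sub (E : List (ℕ × ℕ)) (x p : ℕ → ℝ) (s : ℕ) :
    At E (fun r => x r - p r) s = At E x s - At E p s := by
  unfold At
  rw [← S_sub]
  refine S_congr fun e _ => ?_
  split_ifs
  · rfl
  · rw [sub_zero]

theorem chi_diff {n q : ℕ} {y y' : ℕ → ℕ} (hy : ∀ u < n, y u < q) (hy' : ∀ u < n, y' u < q) :
    ∑ s ∈ range (n * q), (chi q y s - chi q y' s) ^ 2 = 2 * nd n y y' := by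
  have h1 : ∀ s, (chi q y s - chi q y' s) ^ 2 =
      chi q y s ^ 2 + chi q y' s ^ 2 - 2 * (chi q y s * chi q y' s) := fun s => by ring
  simp only [h1]
  rw [sum_sub_distrib, sum_add_distrib, ← mul_sum, chi_norm hy, chi_norm hy',
    sum_chi hy (chi q y')]
  have h2 : ∑ u ∈ range n, chi q y' (u * q + y u) = n - nd n y y' := by
    have h3 : ∀ u ∈ range n, chi q y' (u * q + y u) = 1 - if y u = y' u then 0 else 1 := by
      intro u hu
      rw [chi_node y' (hy u (mem_range.1 hu))]
      split_ifs <;> norm_num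
    rw [sum_congr rfl h3, sum_sub_distrib]
    unfold nd
    simp
  rw [h2]
  ring

section

variable {n d q D : ℕ} {l : List Edge} {ψ : Fin (n * q) → ℕ → ℝ} {μ : Fin (n * q) → ℝ}

/-- The loss of the rounding. -/
theorem slack (h : Xg n d q D l) (hb : Bs (n * q) (UGQ.ext q l) ψ μ) {x y y' : ℕ → ℕ}
    (hx : ∀ u < n, x u < q) (hy : ∀ u < n, y u < q) (hy' : ∀ u < n, y' u < q) {p : ℕ → ℝ}
    {t : Fin (n * q) → ℝ} (hp : ∀ s < n * q, p s = ∑ k, t k * ψ k s)
    (hmax : ∀ v < n, ∀ i < q, At (UGQ.ext q l) p (v * q + i) ≤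
      At (UGQ.ext q l) p (v * q + y' v)) :
    V l x y' ≤ V l x y + √(∑ k, μ k * ((∑ u ∈ range n, ψ k (u * q + x u)) - t k) ^ 2) *
      √(2 * nd n y y') := by
  set a : Fin (n * q) → ℝ := fun k => ∑ u ∈ range n, ψ k (u * q + x u) with ha
  set E := UGQ.ext q l with hE
  have hexp := chi_exp hb hx
  have e1 := BiD h (y := y) hx
  have e2 := BiD h (y := y') hx
  rw [← adj_right (extD_lt h)] at e1 e2
  -- the coefficients of the difference
  have hρ : ∀ s < n * q, (fun r => chi q x r - p r) s = ∑ k, (a k - t k) * ψ k s := by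
    intro s hs
    beta_reduce
    rw [hexp s hs, hp s hs, ← sum_sub_distrib]
    exact sum_congr rfl fun k _ => by ring
  have hnorm := At_norm (extD_lt h) hb hρ
  have h1 : ∑ s ∈ range (n * q), (chi q y s - chi q y' s) * At E (chi q x) s =
      V l x y' - V l x y := by
    have : ∀ s, (chi q y s - chi q y' s) * At E (chi q x) s =
        chi q y s * At E (chi q x) s - chi q y' s * At E (chi q x) s := fun s => by ring
    simp only [this]
    rw [sum_sub_distrib, e1, e2]
    ring
  have h2 : ∑ s ∈ range (n * q), (chi q y s - chi q y' s) * At E (chi q x) s =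
      ∑ s ∈ range (n * q), (chi q y s - chi q y' s) * At E p s +
      ∑ s ∈ range (n * q), (chi q y s - chi q y' s) * At E (fun r => chi q x r - p r) s := by
    rw [← sum_add_distrib]
    refine sum_congr rfl fun s _ => ?_
    rw [At_sub]
    ring
  have h3 : ∑ s ∈ range (n * q), (chi q y s - chi q y' s) * At E p s ≤ 0 := by
    have : ∀ s, (chi q y s - chi q y' s) * At E p s =
        chi q y s * At E p s - chi q y' s * At E p s := fun s => by ring
    simp only [this]
    rw [sum_sub_distrib, sum_chi hy, sum_chi hy', ← sum_sub_distrib]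
    refine sum_nonpos fun v hv => ?_
    rw [mem_range] at hv
    have := hmax v hv (y v) (hy v hv)
    linarith
  have h4 := Real.sum_mul_le_sqrt_mul_sqrt (range (n * q)) (fun s => chi q y s - chi q y' s)
    (fun s => At E (fun r => chi q x r - p r) s)
  rw [chi_diff hy hy', hnorm, mul_comm (√(2 * nd n y y'))] at h4
  linarith

/-- The norm of the error. -/
theorem err_le {g Q τ : ℝ} (hQ : 0 < Q) (hg : 0 ≤ g) (hμ : ∀ k, 0 ≤ μ k) (hμ1 : ∀ k, μ k ≤ D * g)
    (a t : Fin (n * q) → ℝ) (ht : ∑ k, (t k - if 4 * g ≤ Q * μ k then a k else 0) ^ 2 ≤ τ) :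
    ∑ k, μ k * (a k - t k) ^ 2 ≤
      8 * g / Q * (∑ k, if 4 * g ≤ Q * μ k then 0 else a k ^ 2) + 2 * (D * g) * τ := by
  have hterm : ∀ k, μ k * (a k - t k) ^ 2 ≤
      8 * g / Q * (if 4 * g ≤ Q * μ k then 0 else a k ^ 2) +
      2 * (D * g) * (t k - if 4 * g ≤ Q * μ k then a k else 0) ^ 2 := by
    intro k
    have h0 := hμ k
    have h1 := hμ1 k
    by_cases hk : 4 * g ≤ Q * μ k
    · rw [if_pos hk, if_pos hk, mul_zero, zero_add]
      have h2 : (a k - t k) ^ 2 = (t k - a k) ^ 2 := by ring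
      rw [h2]
      have h3 := mul_le_mul_of_nonneg_right h1 (sq_nonneg (t k - a k))
      have h4 : 0 ≤ (D * g) * (t k - a k) ^ 2 := by
        have : 0 ≤ D * g := h0.trans h1
        positivity
      linarith
    · rw [if_neg hk, if_neg hk, sub_zero]
      push Not at hk
      have h2 : (a k - t k) ^ 2 ≤ 2 * a k ^ 2 + 2 * t k ^ 2 := by
        nlinarith [sq_nonneg (a k + t k)]
      have h3 := mul_le_mul_of_nonneg_left h2 h0
      have h4 : μ k * a k ^ 2 ≤ 4 * g / Q * a k ^ 2 := by
        refine mul_le_mul_of_nonneg_right ?_ (sq_nonneg _)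
        rw [le_div_iff₀ hQ]
        linarith
      have h5 := mul_le_mul_of_nonneg_right h1 (sq_nonneg (t k))
      have h6 : 8 * g / Q * a k ^ 2 = 2 * (4 * g / Q * a k ^ 2) := by ring
      linarith
  refine (sum_le_sum fun k _ => hterm k).trans ?_
  rw [sum_add_distrib, ← mul_sum, ← mul_sum]
  have := mul_le_mul_of_nonneg_left ht (by positivity : 0 ≤ 2 * ((D : ℝ) * g))
  linarith

/-- The rounding, for all tables. -/
theorem additive (h : Xg n d q D l) (hb : Bs (n * q) (UGQ.ext q l) ψ μ) {x y y' : ℕ → ℕ}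
    (hx : ∀ u < n, x u < q) (hy : ∀ u < n, y u < q) (hy' : ∀ u < n, y' u < q) {p : ℕ → ℝ}
    {t : Fin (n * q) → ℝ} (hp : ∀ s < n * q, p s = ∑ k, t k * ψ k s)
    (hmax : ∀ v < n, ∀ i < q, At (UGQ.ext q l) p (v * q + i) ≤
      At (UGQ.ext q l) p (v * q + y' v)) {Q τ : ℝ} (hQ : 0 < Q)
    (ht : ∑ k, (t k - if 4 * (d : ℝ) ^ 2 ≤ Q * μ k then ∑ u ∈ range n, ψ k (u * q + x u)
      else 0) ^ 2 ≤ τ) (hτ : τ ≤ n / Q) :
    V l x y' ≤ V l x y + √((16 + 4 * D) / Q) * (d * n) := by
  have hn : (0 : ℝ) < n := by exact_mod_cast h.npos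
  have hd : (0 : ℝ) < d := by exact_mod_cast h.dpos
  set a : Fin (n * q) → ℝ := fun k => ∑ u ∈ range n, ψ k (u * q + x u) with ha
  have h1 := slack h hb hx hy hy' hp hmax
  have h2 := err_le hQ (sq_nonneg (d : ℝ)) (muB_nonneg (extD_lt h) hb) (muD_le h hb) a t ht
  have hsum : ∑ k, a k ^ 2 = n := by
    rw [← parseval hb a, ← chi_norm hx]
    exact sum_congr rfl fun s hs => by rw [chi_exp hb hx s (mem_range.1 hs)]
  have h3 : (∑ k, if 4 * (d : ℝ) ^ 2 ≤ Q * μ k then 0 else a k ^ 2) ≤ n := by
    rw [← hsum]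
    refine sum_le_sum fun k _ => ?_
    split_ifs
    · exact sq_nonneg _
    · exact le_rfl
  have h4 : ∑ k, μ k * (a k - t k) ^ 2 ≤ d ^ 2 * n * ((8 + 2 * D) / Q) := by
    refine h2.trans ?_
    have e1 : 8 * (d : ℝ) ^ 2 / Q * (∑ k, if 4 * (d : ℝ) ^ 2 ≤ Q * μ k then 0 else a k ^ 2) ≤
        8 * d ^ 2 / Q * n := mul_le_mul_of_nonneg_left h3 (by positivity)
    have e2 : 2 * (D * (d : ℝ) ^ 2) * τ ≤ 2 * (D * d ^ 2) * (n / Q) :=
      mul_le_mul_of_nonneg_left hτ (by positivity)
    have e3 : (d : ℝ) ^ 2 * n * ((8 + 2 * D) / Q) =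
        8 * d ^ 2 / Q * n + 2 * (D * d ^ 2) * (n / Q) := by
      field_simp
    linarith
  have h5 := nd_le n y y'
  have h6 : √(∑ k, μ k * (a k - t k) ^ 2) * √(2 * nd n y y') ≤
      √((16 + 4 * D) / Q) * (d * n) := by
    calc _ ≤ √(d ^ 2 * n * ((8 + 2 * D) / Q)) * √(2 * n) :=
          mul_le_mul (Real.sqrt_le_sqrt h4) (Real.sqrt_le_sqrt (by linarith))
            (Real.sqrt_nonneg _) (Real.sqrt_nonneg _)
      _ = √((d * n) ^ 2 * ((16 + 4 * D) / Q)) := by
          rw [← Real.sqrt_mul (by positivity)]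
          congr 1
          ring
      _ = _ := by
          rw [Real.sqrt_mul (by positivity), Real.sqrt_sq (by positivity), mul_comm]
  linarith

theorem V_nat (l : List Edge) (x y : ℕ → ℕ) : ∃ k : ℕ, V l x y = k := by
  refine ⟨(l.filter fun e => decide (¬ e.2.2[x e.1]? = some (y e.2.1))).length, ?_⟩
  rw [filter_len]
  unfold V
  refine S_congr fun e _ => ?_
  unfold vio
  by_cases h1 : e.2.2[x e.1]? = some (y e.2.1)
  · rw [if_pos h1, if_neg (by simpa using h1)]
  · rw [if_neg h1, if_pos (by simpa using h1)]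

/-- The rounding, for permutations: the loss is relative. -/
theorem ratio (h : Xg n d q 1 l) (hb : Bs (n * q) (UGQ.ext q l) ψ μ) {x y y' : ℕ → ℕ}
    (hx : ∀ u < n, x u < q) (hy : ∀ u < n, y u < q) (hy' : ∀ u < n, y' u < q) {p : ℕ → ℝ}
    {t : Fin (n * q) → ℝ} (hp : ∀ s < n * q, p s = ∑ k, t k * ψ k s)
    (hmax : ∀ v < n, ∀ i < q, At (UGQ.ext q l) p (v * q + i) ≤
      At (UGQ.ext q l) p (v * q + y' v)) {Q τ : ℝ} (hQ : 36 ≤ Q)
    (ht : ∑ k, (t k - if 4 * (d : ℝ) ^ 2 ≤ Q * μ k then ∑ u ∈ range n, ψ k (u * q + x u)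
      else 0) ^ 2 ≤ τ) (hτ : τ ≤ 1 / (Q * d)) :
    V l x y' ≤ (1 + 29 / √Q) * V l x y := by
  have hn : (0 : ℝ) < n := by exact_mod_cast h.npos
  have hd : (0 : ℝ) < d := by exact_mod_cast h.dpos
  have hd1 : (1 : ℝ) ≤ d := by exact_mod_cast h.dpos
  have hQ0 : 0 < Q := by linarith
  set a : Fin (n * q) → ℝ := fun k => ∑ u ∈ range n, ψ k (u * q + x u) with ha
  set E := UGQ.ext q l with hE
  have hE' := extD_lt h
  have hμ0 := muB_nonneg hE' hb
  have hμ1 := muD_le h hb
  have h1 := slack h hb hx hy hy' hp hmax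
  have h2 := err_le hQ0 (sq_nonneg (d : ℝ)) hμ0 hμ1 a t ht
  have hexp := chi_exp hb hx
  have hsum : ∑ k, a k ^ 2 = n := by
    rw [← parseval hb a, ← chi_norm hx]
    exact sum_congr rfl fun s hs => by rw [hexp s (mem_range.1 hs)]
  have hV0 := V_nonneg l x y
  -- the length of the image
  have hAx := At_norm hE' hb hexp
  have hbi := BiD h (y := y) hx
  rw [← adj_right hE'] at hbi
  have hcs := sum_mul_sq_le_sq_mul_sq (range (n * q)) (chi q y) (At E (chi q x))
  rw [hbi, chi_norm hy, hAx] at hcs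
  have hquad : d ^ 2 * n - 2 * d * V l x y ≤ ∑ k, μ k * a k ^ 2 := by
    have e1 : n * (d ^ 2 * n - 2 * d * V l x y) ≤ n * ∑ k, μ k * a k ^ 2 := by
      refine le_trans ?_ hcs
      nlinarith [sq_nonneg (V l x y)]
    exact le_of_mul_le_mul_left e1 hn
  have hlow : (∑ k, if 4 * (d : ℝ) ^ 2 ≤ Q * μ k then 0 else a k ^ 2) ≤ 4 * V l x y / d := by
    have e1 : ∀ k, d ^ 2 / 2 * (if 4 * (d : ℝ) ^ 2 ≤ Q * μ k then 0 else a k ^ 2) ≤
        d ^ 2 * a k ^ 2 - μ k * a k ^ 2 := by
      intro k
      have h3 := hμ1 k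
      rw [Nat.cast_one, one_mul] at h3
      split_ifs with h4
      · have := mul_le_mul_of_nonneg_right h3 (sq_nonneg (a k))
        linarith
      · push Not at h4
        have h5 : μ k ≤ d ^ 2 / 2 := by
          by_contra hcon
          push Not at hcon
          nlinarith [hμ0 k, sq_nonneg (d : ℝ)]
        have := mul_le_mul_of_nonneg_right h5 (sq_nonneg (a k))
        linarith
    have e2 := sum_le_sum fun k (_ : k ∈ univ) => e1 k
    rw [← mul_sum, sum_sub_distrib, ← mul_sum, hsum] at e2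
    rw [le_div_iff₀ hd]
    have e3 : (d : ℝ) * ((∑ k, if 4 * (d : ℝ) ^ 2 ≤ Q * μ k then 0 else a k ^ 2) * d) ≤
        d * (4 * V l x y) := by linarith
    exact le_of_mul_le_mul_left e3 hd
  have hH : ∑ k, μ k * (a k - t k) ^ 2 ≤ 32 * d * V l x y / Q + 2 * d ^ 2 * τ := by
    refine h2.trans ?_
    have e1 := mul_le_mul_of_nonneg_left hlow (by positivity : 0 ≤ 8 * (d : ℝ) ^ 2 / Q)
    have e2 : 8 * (d : ℝ) ^ 2 / Q * (4 * V l x y / d) = 32 * d * V l x y / Q := by
      field_simp
      ring
    rw [Nat.cast_one, one_mul]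
    linarith
  -- the number of the changed vertices
  have hρ : ∀ s < n * q, (fun r => chi q x r - p r) s = ∑ k, (a k - t k) * ψ k s := by
    intro s hs
    beta_reduce
    rw [hexp s hs, hp s hs, ← sum_sub_distrib]
    exact sum_congr rfl fun k _ => by ring
  have hnorm := At_norm hE' hb hρ
  have hN : nd n y y' ≤ 8 * V l x y / d + 4 / d ^ 2 * ∑ k, μ k * (a k - t k) ^ 2 := by
    have e1 : nd n y y' ≤ 2 * ∑ s ∈ range (n * q), (At E p s / d - chi q y s) ^ 2 := by
      rw [sum_node, mul_sum]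
      unfold nd
      refine sum_le_sum fun v hv => ?_
      rw [mem_range] at hv
      split_ifs with h3
      · exact mul_nonneg (by norm_num) (sum_nonneg fun i _ => sq_nonneg _)
      · have h4 : (At E p (v * q + y v) / d - chi q y (v * q + y v)) ^ 2 +
            (At E p (v * q + y' v) / d - chi q y (v * q + y' v)) ^ 2 ≤
            ∑ i ∈ range q, (At E p (v * q + i) / d - chi q y (v * q + i)) ^ 2 := by
          rw [← sum_pair (f := fun i => (At E p (v * q + i) / d - chi q y (v * q + i)) ^ 2) h3]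
          refine sum_le_sum_of_subset_of_nonneg ?_ fun i _ _ => sq_nonneg _
          intro i hi
          rw [mem_insert, mem_singleton] at hi
          rcases hi with rfl | rfl
          · exact mem_range.2 (hy v hv)
          · exact mem_range.2 (hy' v hv)
        rw [chi_node y (hy v hv), chi_node y (hy' v hv), if_pos rfl, if_neg fun h' => h3 h'.symm]
          at h4
        have h5 := hmax v hv (y v) (hy v hv)
        have h6 : At E p (v * q + y v) / d ≤ At E p (v * q + y' v) / d :=
          div_le_div_of_nonneg_right h5 hd.le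
        generalize At E p (v * q + y v) / d = α at h4 h6
        generalize At E p (v * q + y' v) / d = β at h4 h6
        have h7 : 1 / 2 ≤ (α - 1) ^ 2 + (β - 0) ^ 2 := by
          rcases le_or_gt 0 α with h8 | h8
          · nlinarith [sq_nonneg (2 * α - 1)]
          · nlinarith [sq_nonneg β]
        linarith
    have e2 : ∑ s ∈ range (n * q), (At E p s / d - chi q y s) ^ 2 ≤
        2 * (∑ s ∈ range (n * q), (At E (chi q x) s / d - chi q y s) ^ 2) +
        2 * ((∑ s ∈ range (n * q), At E (fun r => chi q x r - p r) s ^ 2) / d ^ 2) := by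
      rw [sum_div, mul_sum, mul_sum, ← sum_add_distrib]
      refine sum_le_sum fun s _ => ?_
      rw [← div_pow, At_sub]
      have e3 : At E p s / d - chi q y s = (At E (chi q x) s / d - chi q y s) -
          (At E (chi q x) s - At E p s) / d := by ring
      rw [e3]
      generalize (At E (chi q x) s / d - chi q y s) = u
      generalize (At E (chi q x) s - At E p s) / d = v
      nlinarith [sq_nonneg (u + v)]
    have e4 : ∑ s ∈ range (n * q), (At E (chi q x) s / d - chi q y s) ^ 2 ≤
        2 * V l x y / d := by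
      have e5 : ∀ s, (At E (chi q x) s / d - chi q y s) ^ 2 =
          At E (chi q x) s ^ 2 / d ^ 2 - 2 / d * (chi q y s * At E (chi q x) s) +
            chi q y s ^ 2 := by
        intro s
        field_simp
        ring
      simp only [e5]
      rw [sum_add_distrib, sum_sub_distrib, ← sum_div, ← mul_sum, hAx, hbi, chi_norm hy]
      have e6 : (∑ k, μ k * a k ^ 2) / d ^ 2 ≤ n := by
        rw [div_le_iff₀ (by positivity), ← hsum, sum_mul]
        refine sum_le_sum fun k _ => ?_
        have h3 := hμ1 k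
        rw [Nat.cast_one, one_mul] at h3
        have := mul_le_mul_of_nonneg_right h3 (sq_nonneg (a k))
        linarith
      have e7 : 2 / (d : ℝ) * (d * n - V l x y) = 2 * n - 2 * V l x y / d := by
        field_simp
      rw [e7]
      linarith
    rw [hnorm] at e2
    have e8 : 4 / (d : ℝ) ^ 2 * ∑ k, μ k * (a k - t k) ^ 2 =
        4 * ((∑ k, μ k * (a k - t k) ^ 2) / d ^ 2) := by ring
    rw [e8]
    have e9 : 8 * V l x y / d = 4 * (2 * V l x y / d) := by ring
    rw [e9]
    linarith
  have hnd0 := nd_nonneg n y y'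
  -- conclusion
  have hτQ : τ * (Q * d) ≤ 1 := by
    rw [← le_div_iff₀ (by positivity)]
    exact hτ
  set H := ∑ k, μ k * (a k - t k) ^ 2 with hH'
  obtain ⟨v, hv⟩ := V_nat l x y
  rcases Nat.eq_zero_or_pos v with h0 | h0
  · -- an exact labeling
    have hV : V l x y = 0 := by rw [hv, h0]; norm_num
    rw [hV] at hH hN h1 ⊢
    have h3 : nd n y y' < 1 := by
      refine lt_of_le_of_lt hN ?_
      have e1 : 4 / (d : ℝ) ^ 2 * H ≤ 4 / d ^ 2 * (32 * d * 0 / Q + 2 * d ^ 2 * τ) :=
        mul_le_mul_of_nonneg_left hH (by positivity)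
      have e2 : 4 / (d : ℝ) ^ 2 * (32 * d * 0 / Q + 2 * d ^ 2 * τ) = 8 * τ := by
        field_simp
        ring
      have e3 : 8 * τ < 1 := by
        have : τ ≤ 1 / 36 := by
          refine hτ.trans ?_
          rw [div_le_div_iff₀ (by positivity) (by norm_num)]
          nlinarith
        linarith
      have e4 : 8 * (0 : ℝ) / d = 0 := by simp
      linarith
    have h4 : nd n y y' = 0 := by
      by_contra hcon
      have h5 : 0 < nd n y y' := lt_of_le_of_ne hnd0 (Ne.symm hcon)
      obtain ⟨w, hw, hw1⟩ := exists_lt_of_sum_lt (s := range n) (f := fun _ => (0 : ℝ))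
        (g := fun v => if y v = y' v then (0 : ℝ) else 1) (by
          rw [sum_const_zero]
          exact h5)
      have h6 : (1 : ℝ) ≤ nd n y y' := by
        have h7 : (if y w = y' w then (0 : ℝ) else 1) = 1 := by
          by_cases h8 : y w = y' w
          · rw [if_pos h8] at hw1
            exact absurd hw1 (lt_irrefl _)
          · rw [if_neg h8]
        rw [← h7]
        exact single_le_sum (f := fun v => if y v = y' v then (0 : ℝ) else 1)
          (fun v _ => by beta_reduce; split_ifs <;> norm_num) hw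
      linarith
    rw [h4, mul_zero, Real.sqrt_zero, mul_zero, add_zero] at h1
    rw [mul_zero]
    exact h1
  · have hV1 : 1 ≤ V l x y := by
      rw [hv]
      exact_mod_cast h0
    have hVp : 0 < V l x y := by linarith
    have h3 : H ≤ 34 * (d * V l x y / Q) := by
      have e1 : 2 * (d : ℝ) ^ 2 * τ ≤ 2 * (d * V l x y / Q) := by
        have e2 : 2 * (d : ℝ) ^ 2 * τ = 2 * (d * (τ * (Q * d)) / Q) := by
          field_simp
        rw [e2]
        have e3 : d * (τ * (Q * d)) / Q ≤ d * V l x y / Q := by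
          refine div_le_div_of_nonneg_right ?_ hQ0.le
          exact mul_le_mul_of_nonneg_left (by linarith) hd.le
        linarith
      have e4 : 32 * d * V l x y / Q = 32 * (d * V l x y / Q) := by ring
      linarith
    have h4 : nd n y y' ≤ 12 * (V l x y / d) := by
      have e1 : 4 / (d : ℝ) ^ 2 * H ≤ 4 / d ^ 2 * (34 * (d * V l x y / Q)) :=
        mul_le_mul_of_nonneg_left h3 (by positivity)
      have e2 : 4 / (d : ℝ) ^ 2 * (34 * (d * V l x y / Q)) = 136 / Q * (V l x y / d) := by
        field_simp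
        ring
      have e3 : 136 / Q * (V l x y / d) ≤ 4 * (V l x y / d) := by
        refine mul_le_mul_of_nonneg_right ?_ (by positivity)
        rw [div_le_iff₀ hQ0]
        linarith
      have e4 : 8 * V l x y / d = 8 * (V l x y / d) := by ring
      linarith
    have h5 : √H * √(2 * nd n y y') ≤ 29 / √Q * V l x y := by
      calc _ ≤ √(34 * (d * V l x y / Q)) * √(24 * (V l x y / d)) :=
            mul_le_mul (Real.sqrt_le_sqrt h3) (Real.sqrt_le_sqrt (by linarith))
              (Real.sqrt_nonneg _) (Real.sqrt_nonneg _)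
        _ = √(V l x y ^ 2 * (816 / Q)) := by
            rw [← Real.sqrt_mul (by positivity)]
            congr 1
            field_simp
            ring
        _ = V l x y * (√816 / √Q) := by
            rw [Real.sqrt_mul (by positivity), Real.sqrt_sq hVp.le, Real.sqrt_div (by norm_num)]
        _ ≤ V l x y * (29 / √Q) := by
            refine mul_le_mul_of_nonneg_left ?_ hVp.le
            refine div_le_div_of_nonneg_right ?_ (Real.sqrt_nonneg _)
            rw [Real.sqrt_le_left (by norm_num)]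
            norm_num
        _ = _ := mul_comm _ _
    linarith

end

end Pool.Agent.K6.H49.LTR
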